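import Pool.Agent.Helper15.TS.St

/-!
# Project TS of helper15 (MP_434a84_lc): module CAB
-/

set_option autoImplicit false

namespace Pool.Agent.Helper6.TS

open Pool.Agent.Helper22.FL Pool.Agent.Helper22.CS Pool.Agent.Helper15.TS

theorem stcab (hCLA : StCLA) (hCLB : StCLB) (hHYP : StHYP) : StCAB := by
  classical
  intro n S R hS hR hSlim hT d hd hmod I P c' hI hP hsub
  obtain ⟨r, hr, x, z, h1, h2, h3, h4, h5, h6, h7⟩ := hCLA n S R hR hSlim hT I P c' d hI hP hd hsub
  obtain ⟨α, hα⟩ := hHYP n I (restr r.2 I) (fun p hp => (Finset.mem_filter.1 hp).2) h2 h3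
  obtain ⟨B0, hB0⟩ := hCLB n S R hS hR hSlim hT I (restr r.2 I) α x d hI hα h1 hd (hmod r hr I)
  set a : Fin n → ℕ := fun i => if i ∈ I then x i + d * B0 else x i with ha
  set k : ℤ := -((∑ i ∈ I, α i) * B0) with hk
  have hd0 : (d : ℤ) ≠ 0 := by
    have : 0 < d := hd
    exact_mod_cast this.ne'
  have hdq : (d : ℚ) ≠ 0 := by exact_mod_cast (show d ≠ 0 by omega)
  have hsumI : ∀ f : Fin n → ℤ, (∑ i, if i ∈ I then f i else 0) = ∑ i ∈ I, f i := by
    intro f
    rw [Finset.sum_ite_mem, Finset.univ_inter]
  refine ⟨a, α, k, ∑ i, a i, ?_, ?_⟩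
  · rintro y ⟨u, hu0, huk, rfl⟩
    have hyI : ∀ i, ((a + d • u) i : ℤ) - x i = d * ((if i ∈ I then (B0 : ℤ) else 0) + u i) := by
      intro i
      have e1 : (a + d • u) i = a i + d * u i := by
        rw [Pi.add_apply, Pi.smul_apply, smul_eq_mul]
      rw [e1]
      by_cases hi : i ∈ I
      · simp only [ha, if_pos hi]
        push_cast
        ring
      · simp only [ha, if_neg hi]
        push_cast
        ring
    apply hB0
    · intro i hi
      have := hyI i
      rw [if_neg hi, hu0 i hi] at this
      simp only [Nat.cast_zero, add_zero, mul_zero] at this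
      omega
    · intro i
      exact ⟨_, hyI i⟩
    · have e1 : ∀ i, α i * (((a + d • u) i : ℤ) - x i) =
          d * ((if i ∈ I then α i * B0 else 0) + α i * u i) := by
        intro i
        rw [hyI i]
        split_ifs <;> ring
      simp only [e1]
      rw [← Finset.mul_sum, Finset.sum_add_distrib, huk, hsumI (fun i => α i * B0), ← Finset.sum_mul, hk]
      ring
    · intro i hi
      have e1 : (a + d • u) i = a i + d * u i := by
        rw [Pi.add_apply, Pi.smul_apply, smul_eq_mul]
      rw [e1]
      simp only [ha, if_pos hi]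
      have e2 : B0 ≤ d * B0 := Nat.le_mul_of_pos_left B0 hd
      omega
  · intro t ht
    set T : Fin n → ℕ := ∑ p ∈ P, t p • p with hTdef
    have hTi : ∀ i, i ∉ I → T i = 0 := by
      intro i hi
      rw [hTdef, Finset.sum_apply]
      apply Finset.sum_eq_zero
      intro p hp
      have : p i = 0 := by
        by_contra h
        apply hi
        rw [← hP]
        exact Finset.mem_biUnion.2 ⟨p, hp, mem_letters.2 h⟩
      rw [Pi.smul_apply, this, smul_zero]
    have hx : ∀ i, x i = c' i + d * z i := by
      intro i
      rw [h6, Pi.add_apply, Pi.smul_apply, smul_eq_mul]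
    have hge : ∀ i ∈ I, z i + B0 ≤ T i := by
      intro i hi
      have e1 := ht i hi
      have e2 : a i ≤ ∑ i, a i := Finset.single_le_sum (fun _ _ => Nat.zero_le _) (Finset.mem_univ i)
      have e3 : (c' + d • T) i = c' i + d * T i := by
        rw [Pi.add_apply, Pi.smul_apply, smul_eq_mul]
      rw [e3] at e1
      have e4 : a i = c' i + d * z i + d * B0 := by
        simp only [ha, if_pos hi]
        rw [hx i]
      have e5 : d * (z i + B0) ≤ d * T i := by
        rw [mul_add]
        omega
      exact Nat.le_of_mul_le_mul_left e5 hd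
    -- the linear relation
    have hTspan : toQ T ∈ spQ (restr r.2 I) := by
      have e1 : toQ T = ∑ p ∈ P, (t p : ℚ) • toQ p := by
        funext i
        rw [Finset.sum_apply]
        unfold toQ
        rw [hTdef, Finset.sum_apply]
        push_cast
        apply Finset.sum_congr rfl
        intro p _
        simp
      rw [e1]
      exact Submodule.sum_mem _ (fun p hp => Submodule.smul_mem _ _ (h4 p hp))
    have hzspan : toQ z ∈ spQ (restr r.2 I) := by
      have e1 : toQ z = (d : ℚ)⁻¹ • (toQ x - toQ c') := by
        funext i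
        simp only [toQ, Pi.smul_apply, Pi.sub_apply, smul_eq_mul]
        rw [hx i]
        push_cast
        field_simp
        ring
      rw [e1]
      exact Submodule.smul_mem _ _ h5
    have hrel : ∑ i, α i * ((T i : ℤ) - z i) = 0 := by
      have e1 := (hα.2.2.2 (fun i => (T i : ℚ) - z i) (fun i hi => by
        show (T i : ℚ) - z i = 0
        rw [hTi i hi, h7 i hi]
        simp)).1 (by
          have := Submodule.sub_mem _ hTspan hzspan
          exact this)
      exact_mod_cast e1
    refine ⟨fun i => if i ∈ I then T i - z i - B0 else 0, ?_, ?_, ?_⟩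
    · intro i hi
      simp [hi]
    · have e1 : ∀ i, α i * (((if i ∈ I then T i - z i - B0 else 0 : ℕ)) : ℤ) =
          α i * ((T i : ℤ) - z i) - (if i ∈ I then α i * B0 else 0) := by
        intro i
        by_cases hi : i ∈ I
        · rw [if_pos hi, if_pos hi]
          have e2 := hge i hi
          have e3 : ((T i - z i - B0 : ℕ) : ℤ) = (T i : ℤ) - z i - B0 := by omega
          rw [e3]
          ring
        · rw [if_neg hi, if_neg hi, hTi i hi, h7 i hi]
          simp
      simp only [e1]
      rw [Finset.sum_sub_distrib, hrel, hsumI (fun i => α i * B0), ← Finset.sum_mul, hk]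
      ring
    · funext i
      rw [Pi.add_apply, Pi.smul_apply, smul_eq_mul, Pi.add_apply, Pi.smul_apply, smul_eq_mul]
      show c' i + d * T i = a i + d * (if i ∈ I then T i - z i - B0 else 0)
      by_cases hi : i ∈ I
      · rw [if_pos hi]
        simp only [ha, if_pos hi]
        rw [hx i]
        obtain ⟨e, he⟩ := Nat.exists_eq_add_of_le (hge i hi)
        have e3 : T i - z i - B0 = e := by omega
        rw [e3, he]
        ring
      · rw [if_neg hi]
        simp only [ha, if_neg hi]
        rw [hx i, hTi i hi, h7 i hi]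
        ring

end Pool.Agent.Helper6.TS
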