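import Pool.Agent.Helper6.TS.Sym2

/-!
# Trisections and nilpotent quotients: correction of a system, Lagrangians, the relation, exact lifts
-/

set_option autoImplicit false

namespace Pool.Agent.Helper6.TS

open scoped commutatorElement

/-! ### Correction -/

/-- corrected elements -/
noncomputable def cor {g : ℕ} (t : Fin g → ℕ) (k d : Fin g → Surf g) (x : Fin g) : Surf g :=
  d x * ((List.finRange g).map fun y => k y ^ (if t x < t y then -om (d x) (d y) else 0)).prod

theorem cd_cor {g : ℕ} (t : Fin g → ℕ) (k d : Fin g → Surf g) (x : Fin g) (s : Fin g × Bool) :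
    cd (cor t k d x) s = cd (d x) s + ∑ y, (if t x < t y then -om (d x) (d y) else 0) * cd (k y) s := by
  unfold cor
  rw [cd_mul, cd_prod, ← Fin.sum_univ_def]
  congr 1
  apply Finset.sum_congr rfl
  intro y _
  rw [cd_zpow]

theorem om_cor_left {g : ℕ} (t : Fin g → ℕ) (k d : Fin g → Surf g) (x : Fin g) (z : Surf g) :
    om (cor t k d x) z = om (d x) z + ∑ y, (if t x < t y then -om (d x) (d y) else 0) * om (k y) z := by
  unfold cor
  rw [om_mul_left]
  congr 1
  refine om_comb_left _ _ k ?_ z
  intro s
  rw [cd_prod, ← Fin.sum_univ_def]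
  apply Finset.sum_congr rfl
  intro y _
  rw [cd_zpow]

theorem cor_kd {g : ℕ} (t : Fin g → ℕ) {k d : Fin g → Surf g} (kk : ∀ x y, om (k x) (k y) = 0)
    (kd : ∀ x y, om (k x) (d y) = if x = y then 1 else 0) (x y : Fin g) :
    om (k x) (cor t k d y) = if x = y then 1 else 0 := by
  rw [om_symm, om_cor_left, om_symm (d y), kd]
  simp only [kk, mul_zero, Finset.sum_const_zero]
  ring

theorem cor_dd {g : ℕ} (t : Fin g → ℕ) {k d : Fin g → Surf g} (kk : ∀ x y, om (k x) (k y) = 0)
    (kd : ∀ x y, om (k x) (d y) = if x = y then 1 else 0)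
    (hs : ∀ x y, t x = t y → om (d x) (d y) = 0) (x y : Fin g) :
    om (cor t k d x) (cor t k d y) = 0 := by
  rw [om_cor_left]
  simp only [cor_kd t kk kd]
  have h1 : ∑ z, (if t x < t z then -om (d x) (d z) else 0) * (if z = y then (1 : ℤ) else 0) =
      if t x < t y then -om (d x) (d y) else 0 := by
    rw [Finset.sum_eq_single y]
    · simp
    · intro z _ hz
      simp [hz]
    · intro h
      exact absurd (Finset.mem_univ y) h
  have h2 : om (d x) (cor t k d y) = om (d x) (d y) - (if t y < t x then om (d x) (d y) else 0) := by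
    rw [om_symm, om_cor_left, om_symm (d y)]
    have h3 : ∑ z, (if t y < t z then -om (d y) (d z) else 0) * om (k z) (d x) =
        if t y < t x then -om (d y) (d x) else 0 := by
      rw [Finset.sum_eq_single x]
      · rw [kd, if_pos rfl, mul_one]
      · intro z _ hz
        rw [kd, if_neg hz, mul_zero]
      · intro h
        exact absurd (Finset.mem_univ x) h
    rw [h3, om_symm (d y) (d x)]
    split_ifs <;> ring
  rw [h1, h2]
  rcases lt_trichotomy (t x) (t y) with h | h | h
  · rw [if_pos h, if_neg (not_lt.2 h.le)]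
    ring
  · rw [if_neg (by rw [h]; exact lt_irrefl _), if_neg (by rw [h]; exact lt_irrefl _), hs x y h]
    ring
  · rw [if_pos h, if_neg (not_lt.2 h.le)]
    ring

/-! ### Kernels are Lagrangian -/

theorem gm_one_comm {G A : Type} [Group G] [CommGroup A] (φ : G →* A) {w : G} (hw : w ∈ gm G 1) : φ w = 1 := by
  have h2 : gm G 1 ≤ φ.ker := by
    rw [show gm G 1 = ⁅(⊤ : Subgroup G), ⊤⁆ from rfl, Subgroup.commutator_le]
    intro a _ b _
    rw [MonoidHom.mem_ker, map_commutatorElement]
    exact commutatorElement_eq_one_iff_mul_comm.2 (mul_comm _ _)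
  exact MonoidHom.mem_ker.1 (h2 hw)

theorem lagrangian {g : ℕ} (f : Surf g →* FreeGroup (Fin g)) (hf : Function.Surjective f) {y z : Surf g}
    (hy : f y = 1) (hz : f z = 1) : om y z = 0 := by
  choose d hd using fun s : Fin g => hf (FreeGroup.of s)
  set k : Fin g → Surf g := fun s => du ((fco s).comp f) with hk
  have hkz : ∀ (x : Fin g) (w : Surf g), om (k x) w = Multiplicative.toAdd (fco x (f w)) := fun x w => om_du _ w
  have kk : ∀ x y, om (k x) (k y) = 0 := by
    intro x y
    rw [hkz, gm_one_comm (fco x) (du_mem f (fco y)), toAdd_one]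
  have kd : ∀ x y, om (k x) (d y) = if x = y then 1 else 0 := by
    intro x y
    rw [hkz, hd, fco_of]
    by_cases h : y = x
    · rw [if_pos h, if_pos h.symm, toAdd_ofAdd]
    · rw [if_neg h, if_neg (Ne.symm h), toAdd_one]
  have hSB : SB k (cor (fun i => (i : ℕ)) k d) := by
    refine ⟨kk, cor_kd _ kk kd, cor_dd _ kk kd ?_⟩
    intro x y hxy
    have : x = y := Fin.ext hxy
    rw [this, om_self]
  have h1 : ∀ s, cd y s = ∑ x, om y (cor (fun i => (i : ℕ)) k d x) * cd (k x) s := by
    intro s
    rw [expand hSB y s]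
    apply Finset.sum_congr rfl
    intro x _
    rw [hkz, hy, map_one, toAdd_one, zero_mul, add_zero]
  rw [om_comb_left y _ k h1 z]
  apply Finset.sum_eq_zero
  intro x _
  rw [hkz, hz, map_one, toAdd_one, mul_zero]

/-! ### The relation -/

/-- the quotient by `gm 2` and its center -/
abbrev Q2 (g : ℕ) : Type := Surf g ⧸ gm (Surf g) 2

abbrev Z2 (g : ℕ) : Subgroup (Q2 g) := Subgroup.center (Q2 g)

instance zcomm (G : Type) [Group G] : CommGroup (Subgroup.center G) :=
  { (inferInstance : Group (Subgroup.center G)) with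
    mul_comm := fun a b => Subtype.ext (Subgroup.mem_center_iff.1 b.2 a) }

theorem prod_zpow_sum {A : Type} [CommGroup A] {ι : Type} [Fintype ι] (a : A) (e : ι → ℤ) :
    ∏ x, a ^ e x = a ^ ∑ x, e x := by
  classical
  have h : ∀ s : Finset ι, ∏ x ∈ s, a ^ e x = a ^ ∑ x ∈ s, e x := by
    intro s
    induction s using Finset.induction_on with
    | empty => simp
    | insert i s hi ih => rw [Finset.prod_insert hi, Finset.sum_insert hi, ih, zpow_add]
  exact h _

theorem relation {g : ℕ} {k d : Fin g → Surf g} (h : SB k d) :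
    ((List.finRange g).map fun x => (⁅k x, d x⁆ : Surf g)).prod ∈ gm (Surf g) 2 := by
  have hcen : ∀ y z : Surf g, (QuotientGroup.mk ⁅y, z⁆ : Q2 g) ∈ Z2 g := by
    intro y z
    rw [Subgroup.mem_center_iff]
    intro x
    exact (central_mk (n := 1) (gm_succ_mem (Subgroup.mem_top y : y ∈ gm (Surf g) 0) z) x).symm
  let β : Surf g → (Surf g →* Z2 g) := fun y =>
    (adr (n := 0) (Subgroup.mem_top y : y ∈ gm (Surf g) 0)).codRestrict (Z2 g) (fun z => hcen y z)
  let β' : Surf g → (Surf g →* Z2 g) := fun z =>
    { toFun := fun y => ⟨QuotientGroup.mk ⁅y, z⁆, hcen y z⟩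
      map_one' := by
        apply Subtype.ext
        show (QuotientGroup.mk ⁅(1 : Surf g), z⁆ : Q2 g) = 1
        rw [commutatorElement_one_left]
        rfl
      map_mul' := fun y y' => by
        apply Subtype.ext
        exact mk_left (n := 0) (Subgroup.mem_top y') z }
  have hββ : ∀ y z, β y z = β' z y := fun y z => rfl
  set c : Fin g × Bool → Fin g × Bool → Z2 g := fun s r => β (gen s) (gen r) with hc
  have hval : ∀ y z : Surf g, β y z = ∏ r, ∏ s, c s r ^ (cd y s * cd z r) := by
    intro y z
    rw [hom_coord (β y) z]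
    apply Finset.prod_congr rfl
    intro r _
    rw [hββ, hom_coord (β' (gen r)) y, ← Finset.prod_zpow]
    apply Finset.prod_congr rfl
    intro s _
    rw [← hββ, ← zpow_mul]
  have hanti : ∀ s r, c s r * c r s = 1 := by
    intro s r
    apply Subtype.ext
    show (QuotientGroup.mk ⁅gen s, gen r⁆ : Q2 g) * QuotientGroup.mk ⁅gen r, gen s⁆ = 1
    rw [← QuotientGroup.mk_mul, ← commutatorElement_inv (gen s) (gen r), mul_inv_cancel]
    rfl
  have hdiag : ∀ s, c s s = 1 := by
    intro s
    apply Subtype.ext
    show (QuotientGroup.mk ⁅gen s, gen s⁆ : Q2 g) = 1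
    rw [commutatorElement_self]
    rfl
  -- the product of the commutators
  set P : Fin g × Bool → Fin g × Bool → ℤ := fun s r =>
    if s.1 = r.1 ∧ s.2 = false ∧ r.2 = true then 1 else 0 with hP
  have hrel : ∏ r, ∏ s, c s r ^ P s r = 1 := by
    have h1 : ∏ i : Fin g, β (gen (i, false)) (gen (i, true)) = (1 : Z2 g) := by
      apply Subtype.ext
      rw [Fin.prod_univ_def, Subgroup.val_list_prod, List.map_map]
      have h2 := congrArg (fun w : Surf g => (QuotientGroup.mk' (gm (Surf g) 2)) w) (rel_surf g)
      simp only [map_one, map_list_prod, List.map_map] at h2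
      exact h2
    rw [← h1, Fintype.prod_prod_type]
    apply Finset.prod_congr rfl
    intro i _
    rw [Fintype.prod_bool]
    have h3 : ∏ s, c s (i, false) ^ P s (i, false) = 1 := by
      apply Finset.prod_eq_one
      intro s _
      simp [hP]
    have h4 : ∏ s, c s (i, true) ^ P s (i, true) = c (i, false) (i, true) := by
      rw [Finset.prod_eq_single (i, false)]
      · simp [hP]
      · rintro ⟨j, b⟩ _ hj
        have : ¬(j = i ∧ b = false) := by
          rintro ⟨rfl, rfl⟩
          exact hj rfl
        simp only [hP, and_true]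
        rw [if_neg this, zpow_zero]
      · intro hh
        exact absurd (Finset.mem_univ _) hh
    rw [h3, h4, mul_one]
  set D : Fin g × Bool → Fin g × Bool → ℤ := fun s r => (∑ x, cd (k x) s * cd (d x) r) - P s r with hD
  have hDs : ∀ s r, D s r = D r s := by
    intro s r
    have h1 := dualrel h s r
    rw [Finset.sum_sub_distrib] at h1
    have h2 : J g s r = P s r - P r s := by
      unfold J
      simp only [hP]
      obtain ⟨i, b⟩ := s
      obtain ⟨j, e⟩ := r
      by_cases hij : i = j
      · subst hij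
        cases b <;> cases e <;> simp
      · simp [hij, Ne.symm hij]
    have h3 : ∑ x, cd (d x) s * cd (k x) r = ∑ x, cd (k x) r * cd (d x) s :=
      Finset.sum_congr rfl (fun x _ => mul_comm _ _)
    simp only [hD]
    rw [h3] at h1
    linarith
  have hDprod : ∏ p : (Fin g × Bool) × (Fin g × Bool), c p.1 p.2 ^ D p.1 p.2 = 1 := by
    apply Finset.prod_involution (fun p _ => (p.2, p.1))
    · intro p _
      show c p.1 p.2 ^ D p.1 p.2 * c p.2 p.1 ^ D p.2 p.1 = 1
      rw [hDs p.2 p.1, ← mul_zpow, hanti, one_zpow]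
    · intro p _ hp heq
      apply hp
      have h1 : p.2 = p.1 := congrArg Prod.fst heq
      rw [h1, hdiag, one_zpow]
    · intro p _
      exact Finset.mem_univ _
    · intro p _
      rfl
  have hmain : ∏ x : Fin g, β (k x) (d x) = (1 : Z2 g) := by
    have h1 : ∏ x : Fin g, β (k x) (d x) = ∏ r, ∏ s, c s r ^ (∑ x, cd (k x) s * cd (d x) r) := by
      simp only [hval]
      rw [Finset.prod_comm]
      apply Finset.prod_congr rfl
      intro r _
      rw [Finset.prod_comm]
      apply Finset.prod_congr rfl
      intro s _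
      exact prod_zpow_sum _ _
    have h2 : ∏ r, ∏ s, c s r ^ (∑ x, cd (k x) s * cd (d x) r) =
        (∏ r, ∏ s, c s r ^ D s r) * ∏ r, ∏ s, c s r ^ P s r := by
      rw [← Finset.prod_mul_distrib]
      apply Finset.prod_congr rfl
      intro r _
      rw [← Finset.prod_mul_distrib]
      apply Finset.prod_congr rfl
      intro s _
      rw [← zpow_add]
      congr 1
      simp only [hD]
      ring
    rw [h1, h2, hrel, mul_one, Finset.prod_comm, ← Fintype.prod_prod_type']
    exact hDprod
  rw [← QuotientGroup.eq_one_iff]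
  have h5 := congrArg Subtype.val hmain
  rw [Fin.prod_univ_def, Subgroup.val_list_prod, List.map_map] at h5
  have h6 : (QuotientGroup.mk' (gm (Surf g) 2)) ((List.finRange g).map fun x => (⁅k x, d x⁆ : Surf g)).prod = 1 := by
    rw [map_list_prod, List.map_map]
    exact h5
  exact h6

end Pool.Agent.Helper6.TS
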