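import Pool.Agent.Helper6.TS.Lift
import Pool.Agent.Helper6.TS.Sym3

/-!
# Trisections and nilpotent quotients: the symplectic system of a trisection
-/

set_option autoImplicit false

namespace Pool.Agent.Helper6.TS

open scoped commutatorElement

/-- the kernel conditions -/
def Ker {g : ℕ} (f : Fin 3 → (Surf g →* FreeGroup (Fin g))) (t : Fin g → Fin 3) (k d : Fin g → Surf g) : Prop :=
  (∀ x j, j ≠ t x → f j (k x) = 1) ∧ ∀ x, f (t x) (d x) = 1

theorem ne_cases (l j : Fin 3) (h : j ≠ l) : j = l + 1 ∨ j = l + 2 := by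
  revert h
  revert l j
  decide

theorem exists_ne2 (l l' : Fin 3) : ∃ j, j ≠ l ∧ j ≠ l' := by
  revert l l'
  decide

/-- epimorphism to the group of a sector, with kernel generated by two kernels -/
theorem sector_map {g : ℕ} {k : Fin 3 → ℕ} {f : Fin 3 → (Surf g →* FreeGroup (Fin g))} (hf : IsTrisection g k f)
    (t : Fin g → Fin 3) (ht : ∀ l, Fintype.card {i // t i = l} = k l) (l : Fin 3) :
    ∃ p : Surf g →* FreeGroup {i // t i = l}, Function.Surjective p ∧
      p.ker = (f (l + 1)).ker ⊔ (f (l + 2)).ker := by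
  obtain ⟨e⟩ := hf.sector l
  let e2 : FreeGroup (Fin (k l)) ≃* FreeGroup {i // t i = l} :=
    FreeGroup.freeGroupCongr (Fintype.equivFinOfCardEq (ht l)).symm
  refine ⟨((e.trans e2).toMonoidHom).comp (QuotientGroup.mk' _), ?_, ?_⟩
  · exact (e.trans e2).surjective.comp (QuotientGroup.mk'_surjective _)
  · rw [MonoidHom.ker_comp_of_injective _ _ (e.trans e2).injective, QuotientGroup.ker_mk']

theorem data {g : ℕ} {k : Fin 3 → ℕ} {f : Fin 3 → (Surf g →* FreeGroup (Fin g))} (hf : IsTrisection g k f)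
    (t : Fin g → Fin 3) (ht : ∀ l, Fintype.card {i // t i = l} = k l)
    (hperf : (f 0).ker ⊔ (f 1).ker ⊔ (f 2).ker ⊔ gm (Surf g) 1 = ⊤) :
    ∃ κ δ : Fin g → Surf g, Ker f t κ δ ∧ SB κ δ := by
  choose p hp hker using sector_map hf t ht
  let φ : Fin g → (Surf g →* Multiplicative ℤ) := fun x =>
    (fco (⟨x, rfl⟩ : {i // t i = t x})).comp (p (t x))
  have hφk : ∀ x w, w ∈ (p (t x)).ker → φ x w = 1 := by
    intro x w hw
    show fco _ (p (t x) w) = 1
    rw [MonoidHom.mem_ker.1 hw, map_one]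
  have kerle : ∀ l j, j ≠ l → (f j).ker ≤ (p l).ker := by
    intro l j hj
    rw [hker]
    rcases ne_cases l j hj with rfl | rfl
    · exact le_sup_left
    · exact le_sup_right
  have hperf' : ∀ l, (f l).ker ⊔ (p l).ker ⊔ gm (Surf g) 1 = ⊤ := by
    intro l
    rw [← hperf, hker]
    fin_cases l
    · show (f 0).ker ⊔ ((f 1).ker ⊔ (f 2).ker) ⊔ gm (Surf g) 1 = _
      rw [← sup_assoc]
    · show (f 1).ker ⊔ ((f 2).ker ⊔ (f 0).ker) ⊔ gm (Surf g) 1 = _
      rw [sup_comm (f 2).ker (f 0).ker, ← sup_assoc, sup_comm (f 1).ker (f 0).ker]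
    · show (f 2).ker ⊔ ((f 0).ker ⊔ (f 1).ker) ⊔ gm (Surf g) 1 = _
      rw [sup_comm (f 2).ker]
  have hdu : ∀ x j, j ≠ t x → f j (du (φ x)) ∈ gm (FreeGroup (Fin g)) 1 := by
    intro x j hj
    obtain ⟨lam, hlam⟩ := factor (f j) (hf.surj j) (φ x) (fun w hw => hφk x w (kerle _ _ hj hw))
    rw [← hlam]
    exact du_mem (f j) lam
  have hne1 : ∀ l : Fin 3, l + 1 ≠ l := by decide
  have hne2 : ∀ l : Fin 3, l + 2 ≠ l := by decide
  choose κ hκ1 hκ2 hκ3 using fun x => lift_int (f (t x + 1)) (f (t x + 2)) (hf.surj _) (hf.surj _) (p (t x))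
    (hp _) (hker _) (y := du (φ x)) (hdu x _ (hne1 _)) (hdu x _ (hne2 _))
  have hκ : ∀ x j, j ≠ t x → f j (κ x) = 1 := by
    intro x j hj
    rcases ne_cases _ j hj with rfl | rfl
    · exact hκ1 x
    · exact hκ2 x
  have hom : ∀ x z, om (κ x) z = Multiplicative.toAdd (φ x z) := by
    intro x z
    rw [om_congr_left (fun s => cd_eq_of_mk (hκ3 x) s) z, om_du]
  have kk : ∀ x y, om (κ x) (κ y) = 0 := by
    intro x y
    obtain ⟨j, hj1, hj2⟩ := exists_ne2 (t x) (t y)
    rw [hom, hφk x _ (kerle _ j hj1 (MonoidHom.mem_ker.2 (hκ y j hj2))), toAdd_one]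
  have hδ : ∀ x, ∃ a, f (t x) a = 1 ∧ ∀ y, Multiplicative.toAdd (φ y a) = if y = x then 1 else 0 := by
    intro x
    obtain ⟨γ, hγ⟩ := hp (t x) (FreeGroup.of ⟨x, rfl⟩)
    have h1 : γ ∈ (f (t x)).ker ⊔ (p (t x)).ker ⊔ gm (Surf g) 1 := by
      rw [hperf']
      exact Subgroup.mem_top γ
    obtain ⟨ab, hab, c, hc, rfl⟩ := Subgroup.mem_sup_of_normal_right.1 h1
    obtain ⟨a, ha, b, hb, rfl⟩ := Subgroup.mem_sup_of_normal_right.1 hab
    refine ⟨a, ha, fun y => ?_⟩
    by_cases hy : t y = t x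
    · have hb' : b ∈ (p (t y)).ker := by rw [hy]; exact hb
      have h2 : φ y (a * b * c) = φ y a := by
        rw [map_mul, map_mul, gm_one_comm (φ y) hc, hφk y b hb', mul_one, mul_one]
      rw [← h2]
      have h3 : ∀ l (hx : t x = l) (hyl : t y = l) (w : Surf g), p l w = FreeGroup.of ⟨x, hx⟩ →
          Multiplicative.toAdd (φ y w) = if y = x then 1 else 0 := by
        intro l hx hyl w hw
        subst hyl
        show Multiplicative.toAdd (fco _ (p (t y) w)) = _
        rw [hw, fco_of]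
        by_cases hxy : y = x
        · subst hxy
          simp
        · rw [if_neg hxy, if_neg, toAdd_one]
          intro h4
          exact hxy (congrArg Subtype.val h4).symm
      exact h3 (t x) rfl hy _ hγ
    · rw [hφk y a (kerle _ _ (Ne.symm hy) ha), toAdd_one, if_neg]
      rintro rfl
      exact hy rfl
  choose δ hδ1 hδ2 using hδ
  have kd : ∀ x y, om (κ x) (δ y) = if x = y then 1 else 0 := by
    intro x y
    rw [hom, hδ2]
  refine ⟨κ, cor (fun i => ((t i : Fin 3) : ℕ)) κ δ, ⟨hκ, ?_⟩, ⟨kk, cor_kd _ kk kd, cor_dd _ kk kd ?_⟩⟩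
  · intro x
    unfold cor
    rw [map_mul, hδ1, one_mul, map_list_prod, List.map_map]
    apply List.prod_eq_one
    intro y hy
    rw [List.mem_map] at hy
    obtain ⟨i, -, rfl⟩ := hy
    show f (t x) (κ i ^ (if ((t x : Fin 3) : ℕ) < ((t i : Fin 3) : ℕ) then -om (δ x) (δ i) else 0)) = 1
    by_cases hi : t x = t i
    · rw [if_neg (by rw [hi]; exact lt_irrefl _), zpow_zero, map_one]
    · rw [map_zpow, hκ i (t x) hi, one_zpow]
  · intro x y hxy
    have h1 : t x = t y := Fin.ext hxy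
    exact lagrangian (f (t x)) (hf.surj _) (hδ1 x) (by rw [h1]; exact hδ1 y)

end Pool.Agent.Helper6.TS
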