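import Pool.Agent.Helper6.TS.Lcs

/-!
# Trisections and nilpotent quotients: decomposition of commutators, Hopfian property
-/

set_option autoImplicit false

namespace Pool.Agent.Helper6.TS

open scoped commutatorElement

/-! ### Decomposition in a group generated by letters -/

section

variable {W : Type} [Group W] {S : Type}

private theorem mon_dich (h : S → W) (ρ : W →* W) (hρ : ∀ s, ρ (h s) = 1 ∨ ρ (h s) = h s) (m : ℕ) :
    ∀ μ ∈ Mon (Set.range h) m, ρ μ = 1 ∨ ρ μ = μ := by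
  induction m with
  | zero =>
    rintro μ ⟨s, rfl⟩
    exact hρ s
  | succ m ih =>
    rintro μ ⟨c, hc, x, ⟨s, rfl⟩, rfl⟩
    rw [map_commutatorElement]
    rcases ih c hc with h1 | h1
    · left
      rw [h1, commutatorElement_one_left]
    · rcases hρ s with h2 | h2
      · left
        rw [h2, commutatorElement_one_right]
      · right
        rw [h1, h2]

private theorem dec_step (h : S → W) (ρ : W →* W) (hρ : ∀ s, ρ (h s) = 1 ∨ ρ (h s) = h s) (m : ℕ)
    (M : Set W) (hM : M ⊆ Mon (Set.range h) m) {w : W} (hw : w ∈ Subgroup.closure M ⊔ gm W (m + 1))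
    (hρw : ρ w ∈ gm W (m + 1)) :
    w ∈ Subgroup.closure {μ | μ ∈ M ∧ ρ μ = 1} ⊔ gm W (m + 1) := by
  set N : Subgroup W := gm W (m + 1) with hN
  set K : Subgroup W := Subgroup.closure {μ | μ ∈ M ∧ ρ μ = 1} ⊔ N with hK
  have hNK : N ≤ K := le_sup_right
  have hMg : ∀ μ ∈ M, μ ∈ gm W m := fun μ hμ => Mon_sub _ m (hM hμ)
  have key : ∀ v ∈ Subgroup.closure M, v ∈ gm W m ∧ v * (ρ v)⁻¹ ∈ K := by
    intro v hv
    induction hv using Subgroup.closure_induction with
    | mem x hx =>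
      refine ⟨hMg x hx, ?_⟩
      rcases mon_dich h ρ hρ m x (hM hx) with h1 | h1
      · rw [h1, inv_one, mul_one]
        exact (le_sup_left : Subgroup.closure {μ | μ ∈ M ∧ ρ μ = 1} ≤ K)
          (Subgroup.subset_closure ⟨hx, h1⟩)
      · rw [h1, mul_inv_cancel]
        exact one_mem _
    | one =>
      refine ⟨one_mem _, ?_⟩
      rw [map_one, inv_one, mul_one]
      exact one_mem _
    | mul x y _ _ hx hy =>
      refine ⟨mul_mem hx.1 hy.1, ?_⟩
      -- (x y) (ρ (x y))⁻¹ = x (y (ρ y)⁻¹) (ρ x)⁻¹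
      have h1 : x * y * (ρ (x * y))⁻¹ =
          (x * (ρ x)⁻¹) * (y * (ρ y)⁻¹) * ⁅(y * (ρ y)⁻¹)⁻¹, ρ x⁆ := by
        rw [map_mul, commutatorElement_def]
        group
      rw [h1]
      refine K.mul_mem (K.mul_mem hx.2 hy.2) (hNK ?_)
      exact gm_succ_mem (inv_mem (mul_mem hy.1 (inv_mem (map_gm ρ m hy.1)))) _
    | inv x _ hx =>
      refine ⟨inv_mem hx.1, ?_⟩
      have h1 : x⁻¹ * (ρ x⁻¹)⁻¹ = (x * (ρ x)⁻¹)⁻¹ * ⁅(x * (ρ x)⁻¹), (ρ x)⁻¹⁆ := by
        rw [map_inv, commutatorElement_def]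
        group
      rw [h1]
      refine K.mul_mem (K.inv_mem hx.2) (hNK ?_)
      exact gm_succ_mem (mul_mem hx.1 (inv_mem (map_gm ρ m hx.1))) _
  obtain ⟨v, hv, z, hz, rfl⟩ := Subgroup.mem_sup_of_normal_right.1 hw
  have h2 := (key v hv).2
  have h3 : ρ v ∈ N := by
    have h4 : ρ v = ρ (v * z) * (ρ z)⁻¹ := by rw [map_mul]; group
    rw [h4]
    exact N.mul_mem hρw (N.inv_mem (map_gm ρ (m + 1) hz))
  have h5 : v * z = v * (ρ v)⁻¹ * (ρ v * z) := by group
  rw [h5]
  exact K.mul_mem h2 (hNK (N.mul_mem h3 hz))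

/-- the decomposition in the group of letters -/
theorem dec (h : S → W) (hgen : Subgroup.closure (Set.range h) = ⊤) (ρ : Fin 3 → (W →* W))
    (hρ : ∀ j s, ρ j (h s) = 1 ∨ ρ j (h s) = h s) (n : ℕ) {w : W} (hw : w ∈ gm W (n + 1))
    (hρw : ∀ j, ρ j w ∈ gm W (n + 2)) :
    w ∈ Subgroup.closure {z | ∃ c ∈ gm W n, ∃ s, z = ⁅c, h s⁆ ∧ ∀ j, ρ j (h s) = 1 ∨ ρ j c = 1} ⊔
      gm W (n + 2) := by
  have hX : Subgroup.closure (Set.range h) ⊔ gm W 1 = ⊤ := by rw [hgen]; exact top_sup_eq _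
  have s0 := gen_step (Set.range h) hX (n + 1) hw
  have s1 := dec_step h (ρ 0) (hρ 0) (n + 1) (Mon (Set.range h) (n + 1)) (fun _ hμ => hμ) s0 (hρw 0)
  have s2 := dec_step h (ρ 1) (hρ 1) (n + 1) _ (fun _ hμ => hμ.1) s1 (hρw 1)
  have s3 := dec_step h (ρ 2) (hρ 2) (n + 1) _ (fun _ hμ => hμ.1.1) s2 (hρw 2)
  suffices hle : Subgroup.closure {μ | μ ∈ {μ | μ ∈ {μ | μ ∈ Mon (Set.range h) (n + 1) ∧ ρ 0 μ = 1} ∧
      ρ 1 μ = 1} ∧ ρ 2 μ = 1} ≤
      Subgroup.closure {z | ∃ c ∈ gm W n, ∃ s, z = ⁅c, h s⁆ ∧ ∀ j, ρ j (h s) = 1 ∨ ρ j c = 1} from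
    (sup_le_sup_right hle (gm W (n + 2))) s3
  rw [Subgroup.closure_le]
  rintro μ ⟨⟨⟨hμ, h0⟩, h1⟩, h2⟩
  by_cases hμ1 : μ = 1
  · rw [hμ1]
    exact one_mem _
  obtain ⟨c, hc, x, ⟨s, rfl⟩, rfl⟩ := hμ
  apply Subgroup.subset_closure
  refine ⟨c, Mon_sub _ n hc, s, rfl, ?_⟩
  have hall : ∀ j, ρ j ⁅c, h s⁆ = 1 := by
    intro j
    fin_cases j
    · exact h0
    · exact h1
    · exact h2
  intro j
  rcases hρ j s with h3 | h3
  · exact Or.inl h3
  · right
    rcases mon_dich h (ρ j) (hρ j) n c hc with h4 | h4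
    · exact h4
    · exfalso
      apply hμ1
      have h5 := hall j
      rw [map_commutatorElement, h3, h4] at h5
      exact h5

end

/-- the decomposition in the group `G` -/
theorem decG {W G : Type} [Group W] [Group G] {S : Type} {F : Fin 3 → Type} [∀ j, Group (F j)]
    (h : S → W) (hgen : Subgroup.closure (Set.range h) = ⊤) (ρ : Fin 3 → (W →* W))
    (hρ : ∀ j s, ρ j (h s) = 1 ∨ ρ j (h s) = h s) (Ψ : W →* G) (hΨ : Ψ.range ⊔ gm G 1 = ⊤)
    (f : ∀ j, G →* F j) (hf : ∀ j w, f j (Ψ (ρ j w)) = f j (Ψ w)) (χ : ∀ j, F j →* W)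
    (hχ : ∀ j w, (QuotientGroup.mk (χ j (f j (Ψ w))) : W ⧸ gm W 1) = QuotientGroup.mk (ρ j w)) (n : ℕ)
    {r : G} (hr : r ∈ gm G (n + 1)) (hfr : ∀ j, f j r = 1) :
    r ∈ Subgroup.closure {z | ∃ c ∈ gm G n, ∃ s, z = ⁅c, Ψ (h s)⁆ ∧ ∀ j, f j (Ψ (h s)) = 1 ∨ f j c = 1} ⊔
      gm G (n + 2) := by
  obtain ⟨_, ⟨w, hw, rfl⟩, z, hz, rfl⟩ := Subgroup.mem_sup_of_normal_right.1 (onto_step Ψ hΨ (n + 1) hr)
  have h1 : ∀ j, f j (Ψ w) ∈ gm (F j) (n + 2) := by
    intro j
    have h2 := hfr j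
    rw [map_mul, mul_eq_one_iff_eq_inv] at h2
    rw [h2]
    exact inv_mem (map_gm (f j) (n + 2) hz)
  have h2 : ∀ j, ρ j w ∈ gm W (n + 2) := by
    intro j
    have h3 := agree ((χ j).comp ((f j).comp Ψ)) (ρ j) (hχ j) (n + 1) w hw
    have h4 : ((χ j).comp ((f j).comp Ψ)) w ∈ gm W (n + 2) := map_gm (χ j) (n + 2) (h1 j)
    rw [← QuotientGroup.eq_one_iff] at h4 ⊢
    rw [← h3]
    exact h4
  have h3 := dec h hgen ρ hρ n hw h2
  obtain ⟨v, hv, z', hz', hvz⟩ := Subgroup.mem_sup_of_normal_right.1 h3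
  have h4 : Ψ v ∈ Subgroup.closure {z | ∃ c ∈ gm G n, ∃ s, z = ⁅c, Ψ (h s)⁆ ∧
      ∀ j, f j (Ψ (h s)) = 1 ∨ f j c = 1} := by
    have h5 : Subgroup.closure {z | ∃ c ∈ gm W n, ∃ s, z = ⁅c, h s⁆ ∧ ∀ j, ρ j (h s) = 1 ∨ ρ j c = 1} ≤
        (Subgroup.closure {z | ∃ c ∈ gm G n, ∃ s, z = ⁅c, Ψ (h s)⁆ ∧
          ∀ j, f j (Ψ (h s)) = 1 ∨ f j c = 1}).comap Ψ := by
      rw [Subgroup.closure_le]
      rintro _ ⟨c, hc, s, rfl, hcs⟩
      rw [SetLike.mem_coe, Subgroup.mem_comap, map_commutatorElement]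
      refine Subgroup.subset_closure ⟨Ψ c, map_gm Ψ n hc, s, rfl, fun j => ?_⟩
      rcases hcs j with h6 | h6
      · left
        rw [← hf, h6, map_one, map_one]
      · right
        rw [← hf, h6, map_one, map_one]
    exact h5 hv
  rw [← hvz, map_mul, mul_assoc]
  exact Subgroup.mul_mem_sup h4 (mul_mem (map_gm Ψ (n + 2) hz') hz)

/-! ### The Hopfian property -/

private theorem hopf_aux (n : ℕ) : ∀ (N : Type) [Group N], (∃ X : Set N, X.Finite ∧ Subgroup.closure X = ⊤) →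
    gm N n = ⊥ → ∀ θ : N →* N, Function.Surjective θ → Function.Injective θ := by
  induction n with
  | zero =>
    intro N _ _ h θ _ x y _
    have h1 : ∀ z : N, z = 1 := by
      intro z
      have : z ∈ gm N 0 := Subgroup.mem_top z
      rw [h] at this
      exact Subgroup.mem_bot.1 this
    rw [h1 x, h1 y]
  | succ n ih =>
    rintro N _ ⟨X, hX, hgen⟩ h θ hθ
    set V : Subgroup N := gm N n with hV
    have hcen : ∀ v ∈ V, ∀ x : N, v * x = x * v := by
      intro v hv x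
      have h1 : ⁅v, x⁆ ∈ gm N (n + 1) := gm_succ_mem hv x
      rw [h] at h1
      exact commutatorElement_eq_one_iff_mul_comm.1 (Subgroup.mem_bot.1 h1)
    have hVmap : V.map θ = V := by
      rw [hV, Subgroup.map_lowerCentralSeries, Subgroup.map_top_of_surjective θ hθ]
    -- V is finitely generated
    have hMfin : ∀ m : ℕ, (Mon X m).Finite := by
      intro m
      induction m with
      | zero => exact hX
      | succ m ihm =>
        refine (Set.Finite.image2 (fun c x => ⁅c, x⁆) ihm hX).subset ?_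
        rintro z ⟨c, hc, x, hx, rfl⟩
        exact ⟨c, hc, x, hx, rfl⟩
    have hVgen : Subgroup.closure (Mon X n) = V := by
      apply le_antisymm
      · exact (Subgroup.closure_le _).2 (Mon_sub X n)
      · have h1 := gen_step X (by rw [hgen]; exact top_sup_eq _) n
        rw [h, sup_bot_eq] at h1
        exact h1
    have hVfg : Group.FG V := by
      rw [Group.fg_iff_subgroup_fg]
      exact ⟨(hMfin n).toFinset, by rw [Set.Finite.coe_toFinset]; exact hVgen⟩
    let _ : CommGroup V := { (inferInstance : Group V) with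
      mul_comm := fun a b => Subtype.ext (hcen a a.2 b) }
    let θV : V →* V := (θ.comp V.subtype).codRestrict V (fun v => by
      have h1 : θ v ∈ V.map θ := ⟨v, v.2, rfl⟩
      rw [hVmap] at h1
      exact h1)
    have hθV : Function.Surjective θV := by
      intro y
      have h1 : (y : N) ∈ V.map θ := by rw [hVmap]; exact y.2
      obtain ⟨x, hx, hxy⟩ := h1
      exact ⟨⟨x, hx⟩, Subtype.ext hxy⟩
    have hθVi : Function.Injective θV := by
      have : AddGroup.FG (Additive V) := AddGroup.fg_iff_mul_fg.2 (by exact hVfg)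
      have : Module.Finite ℤ (Additive V) := Module.Finite.iff_addGroup_fg.2 inferInstance
      have h1 : Function.Surjective (MonoidHom.toAdditive θV).toIntLinearMap := hθV
      have h2 := IsNoetherian.injective_of_surjective_endomorphism (MonoidHom.toAdditive θV).toIntLinearMap h1
      exact h2
    -- the quotient
    have hle : V ≤ V.comap θ := by
      intro v hv
      have h1 : θ v ∈ V.map θ := ⟨v, hv, rfl⟩
      rw [hVmap] at h1
      exact h1
    have hq : gm (N ⧸ V) n = ⊥ := by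
      have h1 : (gm N n).map (QuotientGroup.mk' V) = gm (N ⧸ V) n := by
        rw [Subgroup.map_lowerCentralSeries,
          Subgroup.map_top_of_surjective _ (QuotientGroup.mk'_surjective V)]
      rw [← h1, ← hV, eq_bot_iff]
      rintro _ ⟨v, hv, rfl⟩
      exact Subgroup.mem_bot.2 ((QuotientGroup.eq_one_iff _).2 hv)
    have hqg : ∃ Y : Set (N ⧸ V), Y.Finite ∧ Subgroup.closure Y = ⊤ := by
      refine ⟨QuotientGroup.mk' V '' X, hX.image _, ?_⟩
      rw [← MonoidHom.map_closure, hgen, Subgroup.map_top_of_surjective _ (QuotientGroup.mk'_surjective V)]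
    have hθq : Function.Surjective (QuotientGroup.map V V θ hle) := by
      intro y
      obtain ⟨y, rfl⟩ := QuotientGroup.mk_surjective y
      obtain ⟨x, rfl⟩ := hθ y
      exact ⟨QuotientGroup.mk x, rfl⟩
    have hinj := ih (N ⧸ V) hqg hq _ hθq
    rw [injective_iff_map_eq_one]
    intro x hx
    have h1 : (QuotientGroup.mk x : N ⧸ V) = 1 := by
      apply hinj
      rw [map_one]
      show (QuotientGroup.mk (θ x) : N ⧸ V) = 1
      rw [hx]
      rfl
    have h2 : x ∈ V := (QuotientGroup.eq_one_iff _).1 h1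
    have h3 : θV ⟨x, h2⟩ = θV 1 := by
      rw [map_one]
      exact Subtype.ext hx
    exact congrArg Subtype.val (hθVi h3)

/-- surjective endomorphisms of the nilpotent quotients of a finitely generated group are injective -/
theorem hopf {G : Type} [Group G] (X : Set G) (hX : X.Finite) (hgen : Subgroup.closure X = ⊤) (n : ℕ)
    (θ : G ⧸ gm G n →* G ⧸ gm G n) (hθ : Function.Surjective θ) : Function.Injective θ := by
  refine hopf_aux n (G ⧸ gm G n) ⟨QuotientGroup.mk' (gm G n) '' X, hX.image _, ?_⟩ ?_ θ hθ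
  · rw [← MonoidHom.map_closure, hgen, Subgroup.map_top_of_surjective _ (QuotientGroup.mk'_surjective _)]
  · have h1 : (gm G n).map (QuotientGroup.mk' (gm G n)) = gm (G ⧸ gm G n) n := by
      rw [Subgroup.map_lowerCentralSeries,
        Subgroup.map_top_of_surjective _ (QuotientGroup.mk'_surjective _)]
    rw [← h1, eq_bot_iff]
    rintro _ ⟨v, hv, rfl⟩
    exact Subgroup.mem_bot.2 ((QuotientGroup.eq_one_iff _).2 hv)

end Pool.Agent.Helper6.TS
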