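import Mathlib

/-!
# Group trisections: definitions

Group trisections in the sense of Abrams, Gay and Kirby: a trisection of a closed 4-manifold `X` with central
surface of genus `g` and sectors of genera `k 0, k 1, k 2` gives three epimorphisms `f 0, f 1, f 2` from the
fundamental group of the surface onto the free group of rank `g` (the fundamental groups of the three handlebodies),
such that the pushouts of two of them are free of rank `k l` (the fundamental groups of the sectors).
-/

set_option autoImplicit false

namespace Pool.Agent.Helper6.TS

open scoped commutatorElement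

/-- The product of the commutators `[a_i, b_i]`, `i < g`, in the free group on `a_i = (i, false)` and
`b_i = (i, true)`. -/
def relator (g : ℕ) : FreeGroup (Fin g × Bool) :=
  ((List.finRange g).map fun i => ⁅FreeGroup.of (i, false), FreeGroup.of (i, true)⁆).prod

/-- The fundamental group of the closed orientable surface of genus `g`. -/
abbrev Surf (g : ℕ) : Type := PresentedGroup {relator g}

/-- A group trisection with central surface of genus `g` and sectors of genera `k 0, k 1, k 2`. The sector `l` belongs
to the two maps `f (l + 1)`, `f (l + 2)` (indices modulo 3). -/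
structure IsTrisection (g : ℕ) (k : Fin 3 → ℕ) (f : Fin 3 → (Surf g →* FreeGroup (Fin g))) : Prop where
  surj : ∀ j, Function.Surjective (f j)
  sector : ∀ l, Nonempty ((Surf g ⧸ ((f (l + 1)).ker ⊔ (f (l + 2)).ker)) ≃* FreeGroup (Fin (k l)))

/-- The fundamental group of the trisected 4-manifold. -/
abbrev TotalGroup {g : ℕ} (f : Fin 3 → (Surf g →* FreeGroup (Fin g))) : Type :=
  Surf g ⧸ ((f 0).ker ⊔ (f 1).ker ⊔ (f 2).ker)

/-- The images of the generators under the standard map `j`: with `t i` the type of the handle `i`, the map `j` kills
`a_i` if `t i ≠ j` and `b_i` if `t i = j`; the other one is sent to the generator `i`. -/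
def stdGen {g : ℕ} (t : Fin g → Fin 3) (j : Fin 3) (s : Fin g × Bool) : FreeGroup (Fin g) :=
  if (s.2 = false ↔ t s.1 = j) then FreeGroup.of s.1 else 1

theorem stdGen_relator {g : ℕ} (t : Fin g → Fin 3) (j : Fin 3) :
    ∀ r ∈ ({relator g} : Set (FreeGroup (Fin g × Bool))), FreeGroup.lift (stdGen t j) r = 1 := by
  intro r hr
  rw [Set.mem_singleton_iff] at hr
  subst hr
  unfold relator
  rw [map_list_prod, List.map_map]
  apply List.prod_eq_one
  intro y hy
  rw [List.mem_map] at hy
  obtain ⟨i, -, rfl⟩ := hy
  show FreeGroup.lift (stdGen t j) ⁅FreeGroup.of (i, false), FreeGroup.of (i, true)⁆ = 1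
  rw [map_commutatorElement, FreeGroup.lift_apply_of, FreeGroup.lift_apply_of]
  unfold stdGen
  by_cases h : t i = j
  · simp [h]
  · simp [h]

/-- The standard group trisection with handles of types `t`: the connected sum of the genus one trisections of the
4-sphere, `t i` being the sector of genus one. -/
def std {g : ℕ} (t : Fin g → Fin 3) (j : Fin 3) : Surf g →* FreeGroup (Fin g) :=
  PresentedGroup.toGroup (stdGen_relator t j)

/-- The nilpotent quotient `G / γ`, where `γ` is the term of index `c` of the lower central series
(`c = 0` is `G`, `c = 1` the commutator subgroup). -/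
abbrev Nq (G : Type) [Group G] (c : ℕ) : Type := G ⧸ (⊤ : Subgroup G).lowerCentralSeries c

/-- The homomorphism of nilpotent quotients induced by a homomorphism. -/
def nmap {G H : Type} [Group G] [Group H] (f : G →* H) (c : ℕ) : Nq G c →* Nq H c :=
  QuotientGroup.map _ _ f (by
    rw [← Subgroup.map_le_iff_le_comap, Subgroup.map_lowerCentralSeries]
    exact Subgroup.lowerCentralSeries_mono c le_top)

/-- The projection of a nilpotent quotient onto the one before. -/
def nproj (G : Type) [Group G] (c : ℕ) : Nq G (c + 1) →* Nq G c :=
  QuotientGroup.map _ _ (MonoidHom.id G) (by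
    rw [Subgroup.comap_id]
    exact (⊤ : Subgroup G).lowerCentralSeries_antitone (Nat.le_succ c))

end Pool.Agent.Helper6.TS
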