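import Mathlib

/-!
# Trisections and nilpotent quotients: general lemmas on the lower central series
-/

set_option autoImplicit false

namespace Pool.Agent.Helper6.TS

open scoped commutatorElement

/-- The lower central series, `gm G 0 = G`, `gm G 1 = [G, G]`. -/
abbrev gm (G : Type) [Group G] (n : ℕ) : Subgroup G := (⊤ : Subgroup G).lowerCentralSeries n

section

variable {G : Type} [Group G]

theorem gm_succ_mem {n : ℕ} {p : G} (hp : p ∈ gm G n) (q : G) : ⁅p, q⁆ ∈ gm G (n + 1) :=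
  Subgroup.commutator_mem_commutator hp (Subgroup.mem_top q)

theorem gm_le {m n : ℕ} (h : m ≤ n) : gm G n ≤ gm G m :=
  (⊤ : Subgroup G).lowerCentralSeries_antitone h

/-- in the quotient by `gm (n+1)` the elements of `gm n` are central -/
theorem comm_mk {n : ℕ} {p : G} (hp : p ∈ gm G n) (q : G) :
    (QuotientGroup.mk p : G ⧸ gm G (n + 1)) * QuotientGroup.mk q = QuotientGroup.mk q * QuotientGroup.mk p := by
  have h : (QuotientGroup.mk ⁅p, q⁆ : G ⧸ gm G (n + 1)) = 1 :=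
    (QuotientGroup.eq_one_iff _).2 (gm_succ_mem hp q)
  rw [commutatorElement_def] at h
  rw [QuotientGroup.mk_mul, QuotientGroup.mk_mul, QuotientGroup.mk_mul, QuotientGroup.mk_inv,
    QuotientGroup.mk_inv, mul_inv_eq_one, mul_inv_eq_iff_eq_mul] at h
  exact h

theorem comm_mul_left {Q : Type} [Group Q] (a b c : Q) (h : ∀ x : Q, ⁅b, c⁆ * x = x * ⁅b, c⁆) :
    ⁅a * b, c⁆ = ⁅a, c⁆ * ⁅b, c⁆ := by
  have h1 : ⁅a * b, c⁆ = a * ⁅b, c⁆ * a⁻¹ * ⁅a, c⁆ := by
    simp only [commutatorElement_def]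
    group
  rw [h1, ← h a, mul_assoc, mul_assoc, mul_inv_cancel_left, ← h]

theorem comm_mul_right {Q : Type} [Group Q] (a b c : Q) (h : ∀ x : Q, ⁅a, c⁆ * x = x * ⁅a, c⁆) :
    ⁅a, b * c⁆ = ⁅a, b⁆ * ⁅a, c⁆ := by
  have h1 : ⁅a, b * c⁆ = ⁅a, b⁆ * (b * ⁅a, c⁆ * b⁻¹) := by
    simp only [commutatorElement_def]
    group
  rw [h1, ← h b, mul_inv_cancel_right]

theorem mk_comm (N : Subgroup G) [N.Normal] (p q : G) :
    (QuotientGroup.mk ⁅p, q⁆ : G ⧸ N) = ⁅(QuotientGroup.mk p : G ⧸ N), QuotientGroup.mk q⁆ := by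
  simp only [commutatorElement_def, QuotientGroup.mk_mul, QuotientGroup.mk_inv]

theorem central_mk {n : ℕ} {p : G} (hp : p ∈ gm G n) (x : G ⧸ gm G (n + 1)) :
    (QuotientGroup.mk p : G ⧸ gm G (n + 1)) * x = x * QuotientGroup.mk p := by
  obtain ⟨q, rfl⟩ := QuotientGroup.mk_surjective x
  exact comm_mk hp q

theorem mk_left {n : ℕ} {p p' : G} (hp' : p' ∈ gm G n) (q : G) :
    (QuotientGroup.mk ⁅p * p', q⁆ : G ⧸ gm G (n + 2)) =
      QuotientGroup.mk ⁅p, q⁆ * QuotientGroup.mk ⁅p', q⁆ := by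
  rw [mk_comm, mk_comm, mk_comm, QuotientGroup.mk_mul]
  apply comm_mul_left
  intro x
  rw [← mk_comm]
  exact central_mk (gm_succ_mem hp' q) x

theorem mk_right {n : ℕ} {p : G} (hp : p ∈ gm G n) (q q' : G) :
    (QuotientGroup.mk ⁅p, q * q'⁆ : G ⧸ gm G (n + 2)) =
      QuotientGroup.mk ⁅p, q⁆ * QuotientGroup.mk ⁅p, q'⁆ := by
  rw [mk_comm, mk_comm, mk_comm, QuotientGroup.mk_mul]
  apply comm_mul_right
  intro x
  rw [← mk_comm]
  exact central_mk (gm_succ_mem hp q') x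

/-- `q ↦ [p, q]` modulo `gm (n+2)` -/
def adr {n : ℕ} {p : G} (hp : p ∈ gm G n) : G →* G ⧸ gm G (n + 2) where
  toFun q := QuotientGroup.mk ⁅p, q⁆
  map_one' := by
    rw [commutatorElement_one_right]
    rfl
  map_mul' q q' := mk_right hp q q'

/-- `p ↦ [p, q]` modulo `gm (n+2)`, on `gm n` -/
def adl (n : ℕ) (q : G) : gm G n →* G ⧸ gm G (n + 2) where
  toFun p := QuotientGroup.mk ⁅(p : G), q⁆
  map_one' := by
    rw [Subgroup.coe_one, commutatorElement_one_left]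
    rfl
  map_mul' p p' := mk_left p'.2 q

theorem comm_gm_one {n : ℕ} {p : G} (hp : p ∈ gm G n) {w : G} (hw : w ∈ gm G 1) :
    ⁅p, w⁆ ∈ gm G (n + 2) := by
  have h1 : gm G 1 ≤ (adr hp).ker := by
    rw [show gm G 1 = ⁅(⊤ : Subgroup G), ⊤⁆ from rfl, Subgroup.commutator_le]
    intro a _ b _
    rw [MonoidHom.mem_ker, map_commutatorElement, commutatorElement_eq_one_iff_mul_comm]
    exact central_mk (gm_succ_mem hp a) _
  exact (QuotientGroup.eq_one_iff _).1 (MonoidHom.mem_ker.1 (h1 hw))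

/-- left normed commutators of elements of `X` -/
def Mon (X : Set G) : ℕ → Set G
  | 0 => X
  | n + 1 => {z | ∃ c ∈ Mon X n, ∃ x ∈ X, z = ⁅c, x⁆}

theorem Mon_sub (X : Set G) (n : ℕ) : Mon X n ⊆ gm G n := by
  induction n with
  | zero => exact fun x _ => Subgroup.mem_top x
  | succ n ih =>
    rintro z ⟨c, hc, x, -, rfl⟩
    exact gm_succ_mem (ih hc) x

theorem gen_step (X : Set G) (hX : Subgroup.closure X ⊔ gm G 1 = ⊤) (n : ℕ) :
    gm G n ≤ Subgroup.closure (Mon X n) ⊔ gm G (n + 1) := by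
  induction n with
  | zero =>
    show (⊤ : Subgroup G) ≤ _
    rw [← hX]
    rfl
  | succ n ih =>
    set K : Subgroup G := Subgroup.closure (Mon X (n + 1)) ⊔ gm G (n + 2) with hK
    have hK2 : gm G (n + 2) ≤ K := le_sup_right
    -- membership in `K` only depends on the class modulo `gm (n+2)`
    have hKc : ∀ y y' : G, (QuotientGroup.mk y : G ⧸ gm G (n + 2)) = QuotientGroup.mk y' → y' ∈ K → y ∈ K := by
      intro y y' h hy'
      have h2 : y⁻¹ * y' ∈ gm G (n + 2) := QuotientGroup.eq.1 h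
      have h3 := K.mul_mem hy' (K.inv_mem (hK2 h2))
      have h4 : y' * (y⁻¹ * y')⁻¹ = y := by group
      rwa [h4] at h3
    -- first step: `q ∈ closure X`, `p ∈ Mon X n`
    have s1 : ∀ p ∈ Mon X n, ∀ q : G, ⁅p, q⁆ ∈ K := by
      intro p hp q
      have hp' : p ∈ gm G n := Mon_sub X n hp
      have hq : q ∈ Subgroup.closure X ⊔ gm G 1 := by rw [hX]; exact Subgroup.mem_top q
      have hsub : Subgroup.closure X ⊔ gm G 1 ≤
          (K.map (QuotientGroup.mk' (gm G (n + 2)))).comap (adr hp') := by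
        rw [sup_le_iff]
        refine ⟨(Subgroup.closure_le _).2 ?_, ?_⟩
        · intro x hx
          refine ⟨⁅p, x⁆, ?_, rfl⟩
          exact (le_sup_left : Subgroup.closure (Mon X (n + 1)) ≤ K)
            (Subgroup.subset_closure ⟨p, hp, x, hx, rfl⟩)
        · intro w hw
          refine ⟨⁅p, w⁆, hK2 (comm_gm_one hp' hw), rfl⟩
      obtain ⟨y, hy, hy'⟩ := hsub hq
      exact hKc _ y hy'.symm hy
    -- second step
    rw [show gm G (n + 1) = ⁅gm G n, (⊤ : Subgroup G)⁆ from rfl, Subgroup.commutator_le]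
    intro p hp q _
    have hsub2 : ∀ p0 ∈ Subgroup.closure (Mon X n), p0 ∈ gm G n ∧ ⁅p0, q⁆ ∈ K := by
      intro p0 hp0
      induction hp0 using Subgroup.closure_induction with
      | mem x hx => exact ⟨Mon_sub X n hx, s1 x hx q⟩
      | one =>
        refine ⟨one_mem _, ?_⟩
        rw [commutatorElement_one_left]
        exact one_mem _
      | mul x y _ _ hx hy =>
        refine ⟨mul_mem hx.1 hy.1, hKc _ (⁅x, q⁆ * ⁅y, q⁆) ?_ (K.mul_mem hx.2 hy.2)⟩
        rw [mk_left hy.1, QuotientGroup.mk_mul]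
      | inv x _ hx =>
        refine ⟨inv_mem hx.1, hKc _ (⁅x, q⁆⁻¹) ?_ (K.inv_mem hx.2)⟩
        have h1 := mk_left (p := x) (inv_mem hx.1) q
        rw [mul_inv_cancel, commutatorElement_one_left, QuotientGroup.mk_one] at h1
        rw [QuotientGroup.mk_inv]
        exact eq_inv_of_mul_eq_one_right h1.symm
    obtain ⟨p0, hp0, z, hz, rfl⟩ := Subgroup.mem_sup_of_normal_right.1 (ih hp)
    obtain ⟨h1, h2⟩ := hsub2 p0 hp0
    refine hKc _ (⁅p0, q⁆ * ⁅z, q⁆) ?_ (K.mul_mem h2 (hK2 (gm_succ_mem hz q)))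
    rw [mk_left (gm_le (Nat.le_succ n) hz), QuotientGroup.mk_mul]

end

section

variable {W G : Type} [Group W] [Group G]

theorem map_gm (θ : W →* G) (n : ℕ) {w : W} (hw : w ∈ gm W n) : θ w ∈ gm G n := by
  have h : (gm W n).map θ ≤ gm G n := by
    rw [Subgroup.map_lowerCentralSeries]
    exact Subgroup.lowerCentralSeries_mono n le_top
  exact h ⟨w, hw, rfl⟩

/-- homomorphisms which agree modulo commutators agree on `gm n` modulo `gm (n+1)` -/
theorem agree (θ₁ θ₂ : W →* G)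
    (h : ∀ w, (QuotientGroup.mk (θ₁ w) : G ⧸ gm G 1) = QuotientGroup.mk (θ₂ w)) (n : ℕ) :
    ∀ w ∈ gm W n, (QuotientGroup.mk (θ₁ w) : G ⧸ gm G (n + 1)) = QuotientGroup.mk (θ₂ w) := by
  induction n with
  | zero => exact fun w _ => h w
  | succ n ih =>
    have hle : gm W (n + 1) ≤ MonoidHom.eqLocus ((QuotientGroup.mk' (gm G (n + 2))).comp θ₁)
        ((QuotientGroup.mk' (gm G (n + 2))).comp θ₂) := by
      rw [show gm W (n + 1) = ⁅gm W n, (⊤ : Subgroup W)⁆ from rfl, Subgroup.commutator_le]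
      intro p hp q _
      show (QuotientGroup.mk (θ₁ ⁅p, q⁆) : G ⧸ gm G (n + 2)) = QuotientGroup.mk (θ₂ ⁅p, q⁆)
      rw [map_commutatorElement, map_commutatorElement]
      obtain ⟨z, hz, hz'⟩ : ∃ z ∈ gm G (n + 1), θ₂ p = θ₁ p * z :=
        ⟨(θ₁ p)⁻¹ * θ₂ p, QuotientGroup.eq.1 (ih p hp), by group⟩
      obtain ⟨v, hv, hv'⟩ : ∃ v ∈ gm G 1, θ₂ q = θ₁ q * v :=
        ⟨(θ₁ q)⁻¹ * θ₂ q, QuotientGroup.eq.1 (h q), by group⟩
      have hp' : θ₁ p ∈ gm G n := map_gm θ₁ n hp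
      rw [hz', hv', mk_left (gm_le (Nat.le_succ n) hz), mk_right hp']
      have e1 : (QuotientGroup.mk ⁅θ₁ p, v⁆ : G ⧸ gm G (n + 2)) = 1 :=
        (QuotientGroup.eq_one_iff _).2 (comm_gm_one hp' hv)
      have e2 : (QuotientGroup.mk ⁅z, θ₁ q * v⁆ : G ⧸ gm G (n + 2)) = 1 :=
        (QuotientGroup.eq_one_iff _).2 (gm_succ_mem hz _)
      rw [e1, e2, mul_one, mul_one]
    exact fun w hw => hle hw

/-- a homomorphism which is onto modulo commutators is onto on `gm n` modulo `gm (n+1)` -/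
theorem onto_step (Ψ : W →* G) (h : Ψ.range ⊔ gm G 1 = ⊤) (n : ℕ) :
    gm G n ≤ (gm W n).map Ψ ⊔ gm G (n + 1) := by
  have h1 : Mon (Ψ.range : Set G) n ⊆ ((gm W n).map Ψ : Subgroup G) := by
    induction n with
    | zero =>
      intro x hx
      obtain ⟨w, rfl⟩ := hx
      exact ⟨w, Subgroup.mem_top w, rfl⟩
    | succ n ih =>
      rintro z ⟨c, hc, x, hx, rfl⟩
      obtain ⟨w, hw, rfl⟩ := ih hc
      obtain ⟨v, rfl⟩ := hx
      exact ⟨⁅w, v⁆, gm_succ_mem hw v, map_commutatorElement _ _ _⟩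
  refine (gen_step (Ψ.range : Set G) (by rw [Subgroup.closure_eq]; exact h) n).trans ?_
  exact sup_le_sup_right ((Subgroup.closure_le _).2 h1) _

/-- a homomorphism which is onto modulo commutators is onto modulo `gm n` -/
theorem onto_all (Ψ : W →* G) (h : Ψ.range ⊔ gm G 1 = ⊤) (n : ℕ) : Ψ.range ⊔ gm G n = ⊤ := by
  induction n with
  | zero =>
    show Ψ.range ⊔ (⊤ : Subgroup G) = ⊤
    exact sup_top_eq _
  | succ n ih =>
    rw [eq_top_iff, ← ih]
    refine sup_le le_sup_left ((onto_step Ψ h n).trans ?_)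
    exact sup_le_sup_right ((Subgroup.map_le_range _ _)) _

end

end Pool.Agent.Helper6.TS
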