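import Pool.Agent.Helper6.TS.Lcs

/-!
# Trisections and nilpotent quotients: lifting into the intersection of two kernels
-/

set_option autoImplicit false

namespace Pool.Agent.Helper6.TS

open scoped commutatorElement

theorem factor {A B C : Type} [Group A] [Group B] [Group C] (f : A →* B) (hf : Function.Surjective f) (φ : A →* C)
    (h : f.ker ≤ φ.ker) : ∃ lam : B →* C, lam.comp f = φ :=
  ⟨f.liftOfRightInverse (Function.surjInv hf) (Function.rightInverse_surjInv hf) ⟨φ, h⟩,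
    MonoidHom.liftOfRightInverse_comp f _ _ ⟨φ, h⟩⟩

theorem gm_one_le_ker {G H : Type} [Group G] [Group H] (τ : G →* H) (h : ∀ a b, τ a * τ b = τ b * τ a) :
    gm G 1 ≤ τ.ker := by
  rw [show gm G 1 = ⁅(⊤ : Subgroup G), ⊤⁆ from rfl, Subgroup.commutator_le]
  intro a _ b _
  rw [MonoidHom.mem_ker, map_commutatorElement]
  exact commutatorElement_eq_one_iff_mul_comm.2 (h a b)

theorem map_gm_surj {G H : Type} [Group G] [Group H] (f : G →* H) (hf : Function.Surjective f) (n : ℕ) {w : H}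
    (hw : w ∈ gm H n) : ∃ v ∈ gm G n, f v = w := by
  have h : (gm G n).map f = gm H n := by
    rw [Subgroup.map_lowerCentralSeries, Subgroup.map_top_of_surjective f hf]
  rw [← h] at hw
  exact hw

theorem lift_int {Γ F F' : Type} [Group Γ] [Group F] [Group F'] {I : Type} (f : Γ →* F) (f' : Γ →* F')
    (hf : Function.Surjective f) (hf' : Function.Surjective f') (p : Γ →* FreeGroup I)
    (hp : Function.Surjective p) (hker : p.ker = f.ker ⊔ f'.ker) {y : Γ} (hy : f y ∈ gm F 1)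
    (hy' : f' y ∈ gm F' 1) :
    ∃ x, f x = 1 ∧ f' x = 1 ∧ (QuotientGroup.mk x : Γ ⧸ gm Γ 1) = QuotientGroup.mk y := by
  -- a section
  choose s0 hs0 using hp
  let s : FreeGroup I →* Γ := FreeGroup.lift fun i => s0 (FreeGroup.of i)
  have hs : ∀ w, p (s w) = w := by
    intro w
    have h1 : p.comp s = MonoidHom.id _ := by
      ext i
      show p (s (FreeGroup.of i)) = FreeGroup.of i
      rw [show s (FreeGroup.of i) = s0 (FreeGroup.of i) from FreeGroup.lift_apply_of, hs0]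
    exact DFunLike.congr_fun h1 w
  set R : Subgroup F' := f.ker.map f' with hR
  have hRn : R.Normal := Subgroup.Normal.map inferInstance f' hf'
  set N : Subgroup F' := ⁅R, (⊤ : Subgroup F')⁆ with hN
  have hNn : N.Normal := Subgroup.commutator_normal R ⊤
  -- elements of `R` are central modulo `N`
  have hcen : ∀ r ∈ R, ∀ z : F', (QuotientGroup.mk r : F' ⧸ N) * QuotientGroup.mk z =
      QuotientGroup.mk z * QuotientGroup.mk r := by
    intro r hr z
    have h1 : (QuotientGroup.mk ⁅r, z⁆ : F' ⧸ N) = 1 :=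
      (QuotientGroup.eq_one_iff _).2 (Subgroup.commutator_mem_commutator hr (Subgroup.mem_top z))
    rw [mk_comm, commutatorElement_eq_one_iff_mul_comm] at h1
    exact h1
  have hu : ∀ γ : Γ, f' (γ * (s (p γ))⁻¹) ∈ R := by
    intro γ
    have h1 : γ * (s (p γ))⁻¹ ∈ p.ker := by
      rw [MonoidHom.mem_ker, map_mul, map_inv, hs, mul_inv_cancel]
    rw [hker] at h1
    obtain ⟨a, ha, b, hb, hab⟩ := Subgroup.mem_sup_of_normal_right.1 h1
    rw [← hab, map_mul, MonoidHom.mem_ker.1 hb, mul_one]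
    exact ⟨a, ha, rfl⟩
  let τ : Γ →* F' ⧸ N :=
    { toFun := fun γ => QuotientGroup.mk (f' (γ * (s (p γ))⁻¹))
      map_one' := by simp
      map_mul' := fun γ γ' => by
        have h1 := hcen _ (hu γ') (f' (s (p γ))⁻¹)
        rw [← QuotientGroup.mk_mul, ← QuotientGroup.mk_mul, ← map_mul, ← map_mul] at h1
        have h2 : γ * γ' * (s (p (γ * γ')))⁻¹ = γ * (γ' * (s (p γ'))⁻¹ * (s (p γ))⁻¹) := by
          rw [map_mul, map_mul]
          group
        have h3 : γ * (s (p γ))⁻¹ * (γ' * (s (p γ'))⁻¹) = γ * ((s (p γ))⁻¹ * (γ' * (s (p γ'))⁻¹)) := by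
          group
        rw [← QuotientGroup.mk_mul, ← map_mul, h2, h3, map_mul f' γ, map_mul f' γ, QuotientGroup.mk_mul,
          QuotientGroup.mk_mul, h1] }
  have hτker : gm Γ 1 ≤ τ.ker := by
    apply gm_one_le_ker
    intro a b
    exact hcen _ (hu a) _
  -- the first correction
  obtain ⟨c, hc, hcy⟩ := map_gm_surj f hf 1 hy
  set x0 : Γ := y * c⁻¹ with hx0
  have hx0f : f x0 = 1 := by rw [hx0, map_mul, map_inv, hcy, mul_inv_cancel]
  have hx0f' : f' x0 ∈ gm F' 1 := by
    rw [hx0, map_mul, map_inv]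
    exact mul_mem hy' (inv_mem (map_gm f' 1 hc))
  obtain ⟨w, hw, hwx⟩ := map_gm_surj f' hf' 1 hx0f'
  have hk : f' (w⁻¹ * x0) = 1 := by rw [map_mul, map_inv, hwx, inv_mul_cancel]
  have hx0N : f' x0 ∈ N := by
    have h1 : p x0 = 1 := by
      have h2 : x0 ∈ p.ker := by rw [hker]; exact (le_sup_left : f.ker ≤ _) hx0f
      exact h2
    have h2 : p (w⁻¹ * x0) = 1 := by
      have h3 : w⁻¹ * x0 ∈ p.ker := by rw [hker]; exact (le_sup_right : f'.ker ≤ _) hk
      exact h3
    have h4 : τ x0 = QuotientGroup.mk (f' x0) := by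
      show (QuotientGroup.mk (f' (x0 * (s (p x0))⁻¹)) : F' ⧸ N) = _
      rw [h1, map_one, inv_one, mul_one]
    have h5 : τ (w⁻¹ * x0) = 1 := by
      show (QuotientGroup.mk (f' ((w⁻¹ * x0) * (s (p (w⁻¹ * x0)))⁻¹)) : F' ⧸ N) = _
      rw [h2, map_one, inv_one, mul_one, hk]
      rfl
    have h6 : τ w = 1 := hτker hw
    rw [map_mul, map_inv, h6, inv_one, one_mul, h4] at h5
    exact (QuotientGroup.eq_one_iff _).1 h5
  have hNmap : N = (⁅f.ker, (⊤ : Subgroup Γ)⁆ : Subgroup Γ).map f' := by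
    rw [Subgroup.map_commutator, Subgroup.map_top_of_surjective f' hf']
  rw [hNmap] at hx0N
  obtain ⟨e, he, hex⟩ := hx0N
  have he1 : f e = 1 := by
    have h1 : ⁅f.ker, (⊤ : Subgroup Γ)⁆ ≤ f.ker := Subgroup.commutator_le_left _ _
    exact h1 he
  have he2 : e ∈ gm Γ 1 := by
    have h1 : ⁅f.ker, (⊤ : Subgroup Γ)⁆ ≤ gm Γ 1 := Subgroup.commutator_mono le_top le_rfl
    exact h1 he
  refine ⟨x0 * e⁻¹, ?_, ?_, ?_⟩
  · rw [map_mul, map_inv, hx0f, he1, inv_one, mul_one]
  · rw [map_mul, map_inv, hex, mul_inv_cancel]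
  · rw [QuotientGroup.eq]
    have h1 : (x0 * e⁻¹)⁻¹ * y = e * c := by
      rw [hx0]
      group
    rw [h1]
    exact mul_mem he2 hc

end Pool.Agent.Helper6.TS
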