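import Pool.Agent.Helper12.TS.StB

set_option autoImplicit false

namespace Pool.Agent.Helper6.TS

open Pool.Agent.Helper12.TS
open Pool.Agent.Helper51.AJ (IsMinor Planar Apex ExMinor Con Tch)
open Pool.Agent.Helper12.NK (rst Kc add)

theorem hSMB (hQUO : StQUO) (hMDQ : StMDQ) (hDPT : StDPT) (hBPM : StBPM) (hBPT : StBPT)
    (hBPR : StBPR) (hBCH : StBCH) : StSMB := by
  intro V _ G S A B hM hkc hS hA hB hAB hcov hdeg hnpl hstA hstB
  by_contra hcard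
  have hy0 : A.Nonempty := by
    have h := hA.2.1
    have h1 : Nonempty A := h.nonempty
    exact Set.nonempty_coe_sort.1 h1
  obtain ⟨y, hy⟩ := hy0
  have hSne : S.Nonempty := by
    rw [Set.nonempty_iff_ne_empty]
    intro h
    rw [h, Set.ncard_empty] at hS
    exact absurd hS (by norm_num)
  have hdis : Disjoint A S := hA.1
  obtain ⟨D, hD, hnp, hav⟩ := hDPT V G S A B y hkc hS hA hB hAB hcov hdeg hnpl hM.1 hy
  obtain ⟨ι, hfin, Γ, φ, ρ, hmdl⟩ := hBPM V G D S A hkc hS hA hD hnp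
  have hT := hBPT V ι G D S A Γ φ ρ hS hdis hD hmdl hstA
  obtain ⟨hZ, hL⟩ := hBPR V ι G D S A Γ φ ρ hS hdis hD hmdl hstA hT
  obtain ⟨_, _, _, _, hq5, _, _, hq8, hq9⟩ := hQUO V G Set.univ ρ
  obtain ⟨hnpq, hR5, _⟩ := hMDQ V ι G D A S Γ φ ρ hdis hSne hD hmdl
  have hP := hq9 A S hmdl.rtr hdis hZ
  have hLk : ∀ r, ∃ a ∈ S, ∃ b ∈ S, a ≠ b ∧ Lk (quo G Set.univ ρ) (Rr A ρ \ {r}) a b := by
    intro r
    obtain ⟨a, ha, b, hb, hab, hZ'⟩ := hL r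
    exact ⟨a, ha, b, hb, hab, hq8 A S a b r hmdl.rtr ha hb hab hdis hZ'⟩
  have hmain := hBCH V G D S A B y ρ hkc hS hA hB hAB hstB hmdl.rtr hy hnpq hP hLk hav
  obtain ⟨x, z, hxz, hρ⟩ := hq5 A S hmdl.rtr (by omega)
  obtain ⟨v, hv⟩ := hM.2 G Set.univ ρ le_rfl (by
    intro x _
    have h := hmdl.rtr.fib x
    have he : {z | z ∈ Set.univ ∧ ρ z = ρ x} = {z | ρ z = ρ x} := by
      ext z
      simp
    rw [he]
    exact h) ⟨x, z, hxz, fun h => h.2.2.2 hρ⟩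
  exact hmain v hv

end Pool.Agent.Helper6.TS
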