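import Pool.Agent.Helper6.TS.Step

/-!
# Trisections and nilpotent quotients: recursion and main theorem
-/

set_option autoImplicit false

namespace Pool.Agent.Helper6.TS

open scoped commutatorElement

/-! ### The homomorphisms of nilpotent quotients given by a system -/

theorem gm_quot (G : Type) [Group G] (c : ℕ) : gm (G ⧸ gm G c) c = ⊥ := by
  have h1 : (gm G c).map (QuotientGroup.mk' (gm G c)) = gm (G ⧸ gm G c) c := by
    rw [Subgroup.map_lowerCentralSeries,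
      Subgroup.map_top_of_surjective _ (QuotientGroup.mk'_surjective _)]
  rw [← h1, eq_bot_iff]
  rintro _ ⟨v, hv, rfl⟩
  exact Subgroup.mem_bot.2 ((QuotientGroup.eq_one_iff _).2 hv)

section

variable {g : ℕ}

theorem lift_mk (κ δ : Fin g → Surf g) (c : ℕ) (w : FreeGroup (Fin g × Bool)) :
    FreeGroup.lift (fun s => (QuotientGroup.mk (Psi κ δ (FreeGroup.of s)) : Nq (Surf g) c)) w =
      QuotientGroup.mk (Psi κ δ w) := by
  have h : FreeGroup.lift (fun s => (QuotientGroup.mk (Psi κ δ (FreeGroup.of s)) : Nq (Surf g) c)) =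
      (QuotientGroup.mk' (gm (Surf g) c)).comp (Psi κ δ) := by
    ext s
    rw [FreeGroup.lift_apply_of]
    rfl
  exact DFunLike.congr_fun h w

theorem Psi_relator (κ δ : Fin g → Surf g) : Psi κ δ (relator g) = Rl κ δ := by
  rw [map_relator]
  unfold Rl
  congr 1
  apply List.map_congr_left
  intro x _
  rw [Psi_of, Psi_of, if_pos rfl, if_neg (by simp)]

/-- the homomorphism of the surface group to the nilpotent quotient -/
def th0 (κ δ : Fin g → Surf g) (c : ℕ) (h : Rl κ δ ∈ gm (Surf g) c) : Surf g →* Nq (Surf g) c :=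
  PresentedGroup.toGroup (f := fun s => (QuotientGroup.mk (Psi κ δ (FreeGroup.of s)) : Nq (Surf g) c)) (by
    intro r hr
    rw [Set.mem_singleton_iff] at hr
    subst hr
    rw [lift_mk, Psi_relator]
    exact (QuotientGroup.eq_one_iff _).2 h)

/-- the endomorphism of the nilpotent quotient -/
def th (κ δ : Fin g → Surf g) (c : ℕ) (h : Rl κ δ ∈ gm (Surf g) c) : Nq (Surf g) c →* Nq (Surf g) c :=
  QuotientGroup.lift _ (th0 κ δ c h) (by
    intro y hy
    have h1 := map_gm (th0 κ δ c h) c hy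
    rw [gm_quot] at h1
    exact Subgroup.mem_bot.1 h1)

theorem th_mk (κ δ : Fin g → Surf g) (c : ℕ) (h : Rl κ δ ∈ gm (Surf g) c) (w : FreeGroup (Fin g × Bool)) :
    th κ δ c h (QuotientGroup.mk (PresentedGroup.mk _ w)) = QuotientGroup.mk (Psi κ δ w) := by
  rw [← lift_mk]
  rfl

theorem th_surj {κ δ : Fin g → Surf g} (hS : SB κ δ) (c : ℕ) (h : Rl κ δ ∈ gm (Surf g) c) :
    Function.Surjective (th κ δ c h) := by
  intro y
  obtain ⟨z, rfl⟩ := QuotientGroup.mk_surjective y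
  have h1 : z ∈ (Psi κ δ).range ⊔ gm (Surf g) c := by
    rw [onto_all _ (onto_Psi hS)]
    exact Subgroup.mem_top z
  obtain ⟨_, ⟨w, rfl⟩, e, he, rfl⟩ := Subgroup.mem_sup_of_normal_right.1 h1
  refine ⟨QuotientGroup.mk (PresentedGroup.mk _ w), ?_⟩
  rw [th_mk, QuotientGroup.mk_mul, (QuotientGroup.eq_one_iff e).2 he, mul_one]

theorem th_inj {κ δ : Fin g → Surf g} (hS : SB κ δ) (c : ℕ) (h : Rl κ δ ∈ gm (Surf g) c) :
    Function.Injective (th κ δ c h) :=
  hopf (Set.range (gen : Fin g × Bool → Surf g)) (Set.finite_range _) (closure_gen g) c _ (th_surj hS c h)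

/-- the endomorphism of the free group -/
def ps (f : Fin 3 → (Surf g →* FreeGroup (Fin g))) (t : Fin g → Fin 3) (κ δ : Fin g → Surf g) (j : Fin 3) :
    FreeGroup (Fin g) →* FreeGroup (Fin g) :=
  ((f j).comp (Psi κ δ)).comp (iota t j)

theorem ps_surj {f : Fin 3 → (Surf g →* FreeGroup (Fin g))} (hf : ∀ j, Function.Surjective (f j))
    {t : Fin g → Fin 3} {κ δ : Fin g → Surf g} (hK : Ker f t κ δ) (hS : SB κ δ) (j : Fin 3) (c : ℕ) :
    Function.Surjective (nmap (ps f t κ δ j) c) :=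
  nmap_onto _ c (onto_all _ (onto_beta hf hK hS j) c)

theorem ps_inj {f : Fin 3 → (Surf g →* FreeGroup (Fin g))} (hf : ∀ j, Function.Surjective (f j))
    {t : Fin g → Fin 3} {κ δ : Fin g → Surf g} (hK : Ker f t κ δ) (hS : SB κ δ) (j : Fin 3) (c : ℕ) :
    Function.Injective (nmap (ps f t κ δ j) c) :=
  hopf (Set.range (FreeGroup.of : Fin g → FreeGroup (Fin g))) (Set.finite_range _)
    (FreeGroup.closure_range_of _) c _ (ps_surj hf hK hS j c)

theorem std_mk (t : Fin g → Fin 3) (j : Fin 3) (w : FreeGroup (Fin g × Bool)) :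
    std t j (PresentedGroup.mk _ w) = prj t j w := rfl

theorem commute {f : Fin 3 → (Surf g →* FreeGroup (Fin g))} {t : Fin g → Fin 3} {κ δ : Fin g → Surf g}
    (hK : Ker f t κ δ) (c : ℕ) (h : Rl κ δ ∈ gm (Surf g) c) (j : Fin 3) (y : Nq (Surf g) c) :
    nmap (f j) c (th κ δ c h y) = nmap (ps f t κ δ j) c (nmap (std t j) c y) := by
  obtain ⟨z, rfl⟩ := QuotientGroup.mk_surjective y
  obtain ⟨w, rfl⟩ := PresentedGroup.mk_surjective _ z
  rw [th_mk]
  show (QuotientGroup.mk (f j (Psi κ δ w)) : Nq (FreeGroup (Fin g)) c) =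
    QuotientGroup.mk (ps f t κ δ j (std t j (PresentedGroup.mk _ w)))
  rw [std_mk, ← f_Psi_rho hK, ← iota_prj]
  rfl

theorem Psi_congr {κ δ κ' δ' : Fin g → Surf g} (c : ℕ)
    (h1 : ∀ x, (QuotientGroup.mk (κ' x) : Nq (Surf g) c) = QuotientGroup.mk (κ x))
    (h2 : ∀ x, (QuotientGroup.mk (δ' x) : Nq (Surf g) c) = QuotientGroup.mk (δ x)) (w : FreeGroup (Fin g × Bool)) :
    (QuotientGroup.mk (Psi κ' δ' w) : Nq (Surf g) c) = QuotientGroup.mk (Psi κ δ w) := by
  have h : (QuotientGroup.mk' (gm (Surf g) c)).comp (Psi κ' δ') =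
      (QuotientGroup.mk' (gm (Surf g) c)).comp (Psi κ δ) := by
    ext s
    show (QuotientGroup.mk (Psi κ' δ' (FreeGroup.of s)) : Nq (Surf g) c) = QuotientGroup.mk (Psi κ δ (FreeGroup.of s))
    rw [Psi_of, Psi_of]
    by_cases hs : s.2 = false
    · rw [if_pos hs, if_pos hs]
      exact h1 _
    · rw [if_neg hs, if_neg hs]
      exact h2 _
  exact DFunLike.congr_fun h w

end

/-! ### The recursion -/

section

variable {g : ℕ}

/-- a system for which the product of the commutators is trivial modulo `gm (n+2)` -/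
structure Stage (f : Fin 3 → (Surf g →* FreeGroup (Fin g))) (t : Fin g → Fin 3) (n : ℕ) where
  κ : Fin g → Surf g
  δ : Fin g → Surf g
  ker : Ker f t κ δ
  sb : SB κ δ
  rel : Rl κ δ ∈ gm (Surf g) (n + 2)

theorem cd_mul_gm {y u : Surf g} (hu : u ∈ gm (Surf g) 1) (s : Fin g × Bool) : cd (y * u) s = cd y s := by
  apply cd_eq_of_mk
  rw [QuotientGroup.mk_mul, (QuotientGroup.eq_one_iff u).2 hu, mul_one]

theorem SB_mul {κ δ u v : Fin g → Surf g} (h : SB κ δ) (hu : ∀ x, u x ∈ gm (Surf g) 1)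
    (hv : ∀ x, v x ∈ gm (Surf g) 1) : SB (fun x => κ x * u x) (fun x => δ x * v x) := by
  have e1 : ∀ x z, om (κ x * u x) z = om (κ x) z := fun x z => om_congr_left (cd_mul_gm (hu x)) z
  have e2 : ∀ x z, om (δ x * v x) z = om (δ x) z := fun x z => om_congr_left (cd_mul_gm (hv x)) z
  have e3 : ∀ x z, om z (κ x * u x) = om z (κ x) := fun x z => om_congr_right z (cd_mul_gm (hu x))
  have e4 : ∀ x z, om z (δ x * v x) = om z (δ x) := fun x z => om_congr_right z (cd_mul_gm (hv x))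
  refine ⟨fun x y => ?_, fun x y => ?_, fun x y => ?_⟩
  · rw [e1, e3, h.kk]
  · rw [e1, e4, h.kd]
  · rw [e2, e4, h.dd]

theorem next {f : Fin 3 → (Surf g →* FreeGroup (Fin g))} (hf : ∀ j, Function.Surjective (f j)) {t : Fin g → Fin 3}
    (n : ℕ) (P : Stage f t n) : ∃ P' : Stage f t (n + 1),
      (∀ x, (QuotientGroup.mk (P'.κ x) : Nq (Surf g) (n + 1)) = QuotientGroup.mk (P.κ x)) ∧
      ∀ x, (QuotientGroup.mk (P'.δ x) : Nq (Surf g) (n + 1)) = QuotientGroup.mk (P.δ x) := by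
  obtain ⟨u, v, h1, h2⟩ := step hf P.ker P.sb (n + 1) (by omega) P.rel
  have hle : gm (Surf g) (n + 1) ≤ gm (Surf g) 1 := gm_le (by omega)
  refine ⟨⟨_, _, h1, SB_mul P.sb (fun x => hle (u x).2) (fun x => hle (v x).2), h2⟩, fun x => ?_, fun x => ?_⟩
  · show (QuotientGroup.mk (P.κ x * (u x : Surf g)) : Nq (Surf g) (n + 1)) = _
    rw [QuotientGroup.mk_mul, (QuotientGroup.eq_one_iff (u x : Surf g)).2 (u x).2, mul_one]
  · show (QuotientGroup.mk (P.δ x * (v x : Surf g)) : Nq (Surf g) (n + 1)) = _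
    rw [QuotientGroup.mk_mul, (QuotientGroup.eq_one_iff (v x : Surf g)).2 (v x).2, mul_one]

/-- the sequence of systems -/
theorem stages {k : Fin 3 → ℕ} {f : Fin 3 → (Surf g →* FreeGroup (Fin g))} (hf : IsTrisection g k f)
    (t : Fin g → Fin 3) (ht : ∀ l, Fintype.card {i // t i = l} = k l)
    (hperf : (f 0).ker ⊔ (f 1).ker ⊔ (f 2).ker ⊔ gm (Surf g) 1 = ⊤) :
    ∃ P : ∀ n, Stage f t n, ∀ n,
      (∀ x, (QuotientGroup.mk ((P (n + 1)).κ x) : Nq (Surf g) (n + 1)) = QuotientGroup.mk ((P n).κ x)) ∧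
      ∀ x, (QuotientGroup.mk ((P (n + 1)).δ x) : Nq (Surf g) (n + 1)) = QuotientGroup.mk ((P n).δ x) := by
  obtain ⟨κ, δ, hK, hS⟩ := data hf t ht hperf
  choose nx hnx using fun n (P : Stage f t n) => next hf.surj n P
  refine ⟨fun n => Nat.rec ⟨κ, δ, hK, hS, relation hS⟩ nx n, fun n => ?_⟩
  exact hnx n _

end

theorem main {g : ℕ} {k : Fin 3 → ℕ} {f : Fin 3 → (Surf g →* FreeGroup (Fin g))} (hf : IsTrisection g k f)
    (t : Fin g → Fin 3) (ht : ∀ l, Fintype.card {i // t i = l} = k l)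
    (hperf : (f 0).ker ⊔ (f 1).ker ⊔ (f 2).ker ⊔ gm (Surf g) 1 = ⊤) :
    ∃ (θ : ∀ c : ℕ, Nq (Surf g) c ≃* Nq (Surf g) c)
      (ψ : ∀ (_ : Fin 3) (c : ℕ), Nq (FreeGroup (Fin g)) c ≃* Nq (FreeGroup (Fin g)) c),
      (∀ j c y, nmap (f j) c (θ c y) = ψ j c (nmap (std t j) c y)) ∧
      (∀ c y, nproj (Surf g) c (θ (c + 1) y) = θ c (nproj (Surf g) c y)) ∧
      ∀ j c y, nproj (FreeGroup (Fin g)) c (ψ j (c + 1) y) = ψ j c (nproj (FreeGroup (Fin g)) c y) := by
  obtain ⟨P, hP⟩ := stages hf t ht hperf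
  have hrel : ∀ c, Rl (P c).κ (P c).δ ∈ gm (Surf g) c := fun c => gm_le (by omega) (P c).rel
  -- congruences modulo `gm c`
  have hle : ∀ c, gm (Surf g) (c + 1) ≤ gm (Surf g) c := fun c => gm_le (Nat.le_succ c)
  have hPκ : ∀ c x, (QuotientGroup.mk ((P (c + 1)).κ x) : Nq (Surf g) c) = QuotientGroup.mk ((P c).κ x) := by
    intro c x
    exact QuotientGroup.eq.2 (hle c (QuotientGroup.eq.1 ((hP c).1 x)))
  have hPδ : ∀ c x, (QuotientGroup.mk ((P (c + 1)).δ x) : Nq (Surf g) c) = QuotientGroup.mk ((P c).δ x) := by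
    intro c x
    exact QuotientGroup.eq.2 (hle c (QuotientGroup.eq.1 ((hP c).2 x)))
  refine ⟨fun c => MulEquiv.ofBijective (th (P c).κ (P c).δ c (hrel c))
      ⟨th_inj (P c).sb c (hrel c), th_surj (P c).sb c (hrel c)⟩,
    fun j c => MulEquiv.ofBijective (nmap (ps f t (P c).κ (P c).δ j) c)
      ⟨ps_inj hf.surj (P c).ker (P c).sb j c, ps_surj hf.surj (P c).ker (P c).sb j c⟩, ?_, ?_, ?_⟩
  · intro j c y
    exact commute (P c).ker c (hrel c) j y
  · intro c y
    obtain ⟨z, rfl⟩ := QuotientGroup.mk_surjective y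
    obtain ⟨w, rfl⟩ := PresentedGroup.mk_surjective _ z
    show nproj (Surf g) c (th (P (c + 1)).κ (P (c + 1)).δ (c + 1) (hrel (c + 1))
      (QuotientGroup.mk (PresentedGroup.mk _ w))) =
      th (P c).κ (P c).δ c (hrel c) (QuotientGroup.mk (PresentedGroup.mk _ w))
    rw [th_mk, th_mk]
    exact Psi_congr c (hPκ c) (hPδ c) w
  · intro j c y
    obtain ⟨u, rfl⟩ := QuotientGroup.mk_surjective y
    show (QuotientGroup.mk (f j (Psi (P (c + 1)).κ (P (c + 1)).δ (iota t j u))) : Nq (FreeGroup (Fin g)) c) =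
      QuotientGroup.mk (f j (Psi (P c).κ (P c).δ (iota t j u)))
    have h1 := Psi_congr c (hPκ c) (hPδ c) (iota t j u)
    have h2 := congrArg (nmap (f j) c) h1
    exact h2

end Pool.Agent.Helper6.TS
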