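import Pool.Agent.Helper6.TS.Main

/-!
# Trisections and nilpotent quotients: the standard triples are trisections of the trivial group
-/

set_option autoImplicit false

namespace Pool.Agent.Helper6.TS

open scoped commutatorElement

section

variable {g : ℕ}

theorem std_gen (t : Fin g → Fin 3) (j : Fin 3) (s : Fin g × Bool) :
    std t j (gen s) = if (s.2 = false ↔ t s.1 = j) then FreeGroup.of s.1 else 1 := by
  show std t j (PresentedGroup.of s) = _
  unfold std
  rw [PresentedGroup.toGroup.of]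
  rfl

theorem std_surj (t : Fin g → Fin 3) (j : Fin 3) : Function.Surjective (std t j) := by
  rw [← MonoidHom.range_eq_top, eq_top_iff, ← FreeGroup.closure_range_of (Fin g), Subgroup.closure_le]
  rintro _ ⟨x, rfl⟩
  refine ⟨gen (x, if t x = j then false else true), ?_⟩
  rw [std_gen]
  by_cases h : t x = j
  · simp [h]
  · simp [h]

theorem std_dead_false (t : Fin g → Fin 3) (j : Fin 3) (x : Fin g) (h : j ≠ t x) :
    (gen (x, false) : Surf g) ∈ (std t j).ker := by
  rw [MonoidHom.mem_ker, std_gen, if_neg]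
  intro h1
  exact h (h1.1 rfl).symm

theorem std_dead_true (t : Fin g → Fin 3) (j : Fin 3) (x : Fin g) (h : t x = j) :
    (gen (x, true) : Surf g) ∈ (std t j).ker := by
  rw [MonoidHom.mem_ker, std_gen, if_neg]
  intro h1
  have h2 := h1.2 h
  simp at h2

/-- the letters which survive in the sector `l` -/
def secGen (t : Fin g → Fin 3) (l : Fin 3) (s : Fin g × Bool) : FreeGroup {i // t i = l} :=
  if h : t s.1 = l then (if s.2 = true then FreeGroup.of ⟨s.1, h⟩ else 1) else 1

theorem secGen_false (t : Fin g → Fin 3) (l : Fin 3) (x : Fin g) : secGen t l (x, false) = 1 := by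
  unfold secGen
  by_cases h : t x = l
  · simp [h]
  · simp [h]

theorem secGen_true (t : Fin g → Fin 3) (l : Fin 3) (x : Fin g) (h : t x = l) :
    secGen t l (x, true) = FreeGroup.of ⟨x, h⟩ := by
  unfold secGen
  simp [h]

theorem secGen_ne (t : Fin g → Fin 3) (l : Fin 3) (s : Fin g × Bool) (h : t s.1 ≠ l) : secGen t l s = 1 := by
  unfold secGen
  simp [h]

/-- the map to the group of the sector -/
def sec (t : Fin g → Fin 3) (l : Fin 3) : Surf g →* FreeGroup {i // t i = l} :=
  PresentedGroup.toGroup (f := secGen t l) (by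
    intro r hr
    rw [Set.mem_singleton_iff] at hr
    subst hr
    rw [map_relator]
    apply List.prod_eq_one
    intro y hy
    rw [List.mem_map] at hy
    obtain ⟨i, -, rfl⟩ := hy
    rw [FreeGroup.lift_apply_of, FreeGroup.lift_apply_of, secGen_false, commutatorElement_one_left])

theorem sec_gen (t : Fin g → Fin 3) (l : Fin 3) (s : Fin g × Bool) : sec t l (gen s) = secGen t l s := by
  show sec t l (PresentedGroup.of s) = _
  unfold sec
  rw [PresentedGroup.toGroup.of]

theorem surf_ext {H : Type} [Group H] {φ ψ : Surf g →* H} (h : ∀ s, φ (gen s) = ψ (gen s)) : φ = ψ :=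
  PresentedGroup.ext h

theorem sec_ker (t : Fin g → Fin 3) (l j : Fin 3) (hj : j ≠ l) : (std t j).ker ≤ (sec t l).ker := by
  let ν : FreeGroup (Fin g) →* FreeGroup {i // t i = l} := FreeGroup.lift fun x => secGen t l (x, true)
  have h : ν.comp (std t j) = sec t l := by
    apply surf_ext
    rintro ⟨x, b⟩
    show ν (std t j (gen (x, b))) = sec t l (gen (x, b))
    rw [std_gen, sec_gen]
    cases b
    · rw [secGen_false]
      by_cases hx : t x = j
      · rw [if_pos (by simp [hx])]
        rw [show ν (FreeGroup.of x) = secGen t l (x, true) from FreeGroup.lift_apply_of]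
        exact secGen_ne t l (x, true) (by rw [show t (x, true).1 = t x from rfl, hx]; exact hj)
      · rw [if_neg (by simp [hx]), map_one]
    · by_cases hx : t x = j
      · rw [if_neg (by simp [hx]), map_one]
        exact (secGen_ne t l (x, true) (by rw [show t (x, true).1 = t x from rfl, hx]; exact hj)).symm
      · rw [if_pos (by simp [hx])]
        exact FreeGroup.lift_apply_of
  rw [← h]
  intro w hw
  rw [MonoidHom.mem_ker, MonoidHom.comp_apply, MonoidHom.mem_ker.1 hw, map_one]

theorem std_sector (t : Fin g → Fin 3) (l : Fin 3) :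
    Nonempty ((Surf g ⧸ ((std t (l + 1)).ker ⊔ (std t (l + 2)).ker)) ≃* FreeGroup {i // t i = l}) := by
  have hne1 : ∀ l : Fin 3, l + 1 ≠ l := by decide
  have hne2 : ∀ l : Fin 3, l + 2 ≠ l := by decide
  set K : Subgroup (Surf g) := (std t (l + 1)).ker ⊔ (std t (l + 2)).ker with hK
  have hle : K ≤ (sec t l).ker := sup_le (sec_ker t l _ (hne1 l)) (sec_ker t l _ (hne2 l))
  let A : (Surf g ⧸ K) →* FreeGroup {i // t i = l} := QuotientGroup.lift K (sec t l) hle
  let B : FreeGroup {i // t i = l} →* (Surf g ⧸ K) :=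
    FreeGroup.lift fun i => QuotientGroup.mk (gen ((i : Fin g), true))
  have hB : ∀ i, B (FreeGroup.of i) = QuotientGroup.mk (gen ((i : Fin g), true)) := fun i =>
    FreeGroup.lift_apply_of
  have h1 : B.comp A = MonoidHom.id _ := by
    apply QuotientGroup.monoidHom_ext
    apply surf_ext
    rintro ⟨x, b⟩
    show B (sec t l (gen (x, b))) = QuotientGroup.mk (gen (x, b))
    rw [sec_gen]
    cases b
    · rw [secGen_false, map_one]
      symm
      rw [QuotientGroup.eq_one_iff]
      by_cases hx : l + 1 = t x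
      · refine (le_sup_right : (std t (l + 2)).ker ≤ K) (std_dead_false t _ x ?_)
        rw [← hx]
        have : ∀ l : Fin 3, l + 2 ≠ l + 1 := by decide
        exact this l
      · exact (le_sup_left : (std t (l + 1)).ker ≤ K) (std_dead_false t _ x hx)
    · by_cases hx : t x = l
      · rw [secGen_true t l x hx, hB]
      · rw [secGen_ne t l (x, true) hx, map_one]
        symm
        rw [QuotientGroup.eq_one_iff]
        rcases ne_cases l (t x) hx with h | h
        · exact (le_sup_left : (std t (l + 1)).ker ≤ K) (std_dead_true t _ x h)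
        · exact (le_sup_right : (std t (l + 2)).ker ≤ K) (std_dead_true t _ x h)
  have h2 : A.comp B = MonoidHom.id _ := by
    ext ⟨i, hi⟩
    show A (B (FreeGroup.of ⟨i, hi⟩)) = FreeGroup.of ⟨i, hi⟩
    rw [hB]
    show sec t l (gen (i, true)) = _
    rw [sec_gen, secGen_true t l i hi]
  exact ⟨MonoidHom.toMulEquiv A B h1 h2⟩

theorem std_tri (k : Fin 3 → ℕ) (t : Fin g → Fin 3) (ht : ∀ l, Fintype.card {i // t i = l} = k l) :
    IsTrisection g k (std t) := by
  refine ⟨std_surj t, fun l => ?_⟩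
  obtain ⟨e⟩ := std_sector t l
  exact ⟨e.trans (FreeGroup.freeGroupCongr (Fintype.equivFinOfCardEq (ht l)))⟩

theorem std_total (t : Fin g → Fin 3) : (std t 0).ker ⊔ (std t 1).ker ⊔ (std t 2).ker = ⊤ := by
  rw [eq_top_iff, ← closure_gen g, Subgroup.closure_le]
  have hle : ∀ j : Fin 3, (std t j).ker ≤ (std t 0).ker ⊔ (std t 1).ker ⊔ (std t 2).ker := by
    intro j
    fin_cases j
    · exact le_sup_left.trans le_sup_left
    · exact le_sup_right.trans le_sup_left
    · exact le_sup_right
  rintro _ ⟨⟨x, b⟩, rfl⟩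
  cases b
  · obtain ⟨j, hj, -⟩ := exists_ne2 (t x) (t x)
    exact hle j (std_dead_false t j x hj)
  · exact hle _ (std_dead_true t (t x) x rfl)

theorem sup_total (f : Fin 3 → (Surf g →* FreeGroup (Fin g))) (j : Fin 3) :
    (f j).ker ≤ (f 0).ker ⊔ (f 1).ker ⊔ (f 2).ker := by
  fin_cases j
  · exact le_sup_left.trans le_sup_left
  · exact le_sup_right.trans le_sup_left
  · exact le_sup_right

/-- a triple which is standard modulo commutators has perfect total group -/
theorem perfect_of_one {f : Fin 3 → (Surf g →* FreeGroup (Fin g))} (hf : ∀ j, Function.Surjective (f j))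
    {t : Fin g → Fin 3} (θ : Nq (Surf g) 1 ≃* Nq (Surf g) 1)
    (ψ : Fin 3 → (Nq (FreeGroup (Fin g)) 1 ≃* Nq (FreeGroup (Fin g)) 1))
    (h : ∀ j y, nmap (f j) 1 (θ y) = ψ j (nmap (std t j) 1 y)) :
    (f 0).ker ⊔ (f 1).ker ⊔ (f 2).ker ⊔ gm (Surf g) 1 = ⊤ := by
  set K : Subgroup (Surf g) := (f 0).ker ⊔ (f 1).ker ⊔ (f 2).ker ⊔ gm (Surf g) 1 with hK
  have hgen : ∀ s : Fin g × Bool, ∃ z ∈ K, (QuotientGroup.mk z : Nq (Surf g) 1) = θ (QuotientGroup.mk (gen s)) := by
    intro s
    have h1 : ∃ j, (gen s : Surf g) ∈ (std t j).ker := by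
      obtain ⟨x, b⟩ := s
      cases b
      · obtain ⟨j, hj, -⟩ := exists_ne2 (t x) (t x)
        exact ⟨j, std_dead_false t j x hj⟩
      · exact ⟨t x, std_dead_true t (t x) x rfl⟩
    obtain ⟨j, hj⟩ := h1
    obtain ⟨z, hz⟩ := QuotientGroup.mk_surjective (θ (QuotientGroup.mk (gen s)))
    have h2 := h j (QuotientGroup.mk (gen s))
    have h3 : nmap (std t j) 1 (QuotientGroup.mk (gen s)) = 1 := by
      show (QuotientGroup.mk (std t j (gen s)) : Nq (FreeGroup (Fin g)) 1) = 1
      rw [MonoidHom.mem_ker.1 hj]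
      rfl
    rw [h3, map_one, ← hz] at h2
    have h4 : f j z ∈ gm (FreeGroup (Fin g)) 1 := (QuotientGroup.eq_one_iff _).1 h2
    obtain ⟨c, hc, hcz⟩ := map_gm_surj (f j) (hf j) 1 h4
    have h5 : z * c⁻¹ ∈ (f j).ker := by
      rw [MonoidHom.mem_ker, map_mul, map_inv, hcz, mul_inv_cancel]
    refine ⟨z, ?_, hz⟩
    have h6 : z = z * c⁻¹ * c := by group
    rw [h6]
    exact Subgroup.mul_mem_sup (sup_total f j h5) hc
  have hall : ∀ y : Surf g, ∃ z ∈ K, (QuotientGroup.mk z : Nq (Surf g) 1) = θ (QuotientGroup.mk y) := by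
    have h1 : ∀ y ∈ Subgroup.closure (Set.range (gen : Fin g × Bool → Surf g)),
        ∃ z ∈ K, (QuotientGroup.mk z : Nq (Surf g) 1) = θ (QuotientGroup.mk y) := by
      intro y hy
      induction hy using Subgroup.closure_induction with
      | mem x hx =>
        obtain ⟨s, rfl⟩ := hx
        exact hgen s
      | one =>
        refine ⟨1, one_mem _, ?_⟩
        rw [QuotientGroup.mk_one, map_one]
      | mul x y _ _ hx hy =>
        obtain ⟨z1, h1, h2⟩ := hx
        obtain ⟨z2, h3, h4⟩ := hy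
        refine ⟨z1 * z2, mul_mem h1 h3, ?_⟩
        rw [QuotientGroup.mk_mul, h2, h4, QuotientGroup.mk_mul, map_mul]
      | inv x _ hx =>
        obtain ⟨z1, h1, h2⟩ := hx
        refine ⟨z1⁻¹, inv_mem h1, ?_⟩
        rw [QuotientGroup.mk_inv, h2, QuotientGroup.mk_inv, map_inv]
    intro y
    exact h1 y (by rw [closure_gen]; exact Subgroup.mem_top y)
  rw [eq_top_iff]
  intro w _
  obtain ⟨y0, hy0⟩ := θ.surjective (QuotientGroup.mk w)
  obtain ⟨y, rfl⟩ := QuotientGroup.mk_surjective y0
  obtain ⟨z, hz, hzy⟩ := hall y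
  have h1 : z⁻¹ * w ∈ gm (Surf g) 1 := QuotientGroup.eq.1 (hzy.trans hy0)
  have h2 : w = z * (z⁻¹ * w) := by group
  rw [h2]
  exact mul_mem hz ((le_sup_right : gm (Surf g) 1 ≤ K) h1)

theorem perfect_iff (f : Fin 3 → (Surf g →* FreeGroup (Fin g))) :
    commutator (TotalGroup f) = ⊤ ↔ (f 0).ker ⊔ (f 1).ker ⊔ (f 2).ker ⊔ gm (Surf g) 1 = ⊤ := by
  set K : Subgroup (Surf g) := (f 0).ker ⊔ (f 1).ker ⊔ (f 2).ker with hK
  have h1 : (gm (Surf g) 1).map (QuotientGroup.mk' K) = commutator (Surf g ⧸ K) := by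
    rw [Subgroup.map_lowerCentralSeries,
      Subgroup.map_top_of_surjective _ (QuotientGroup.mk'_surjective _)]
    rfl
  show commutator (Surf g ⧸ K) = ⊤ ↔ _
  rw [← h1]
  constructor
  · intro h
    rw [eq_top_iff]
    intro y _
    have h2 : QuotientGroup.mk' K y ∈ (gm (Surf g) 1).map (QuotientGroup.mk' K) := by
      rw [h]
      exact Subgroup.mem_top _
    obtain ⟨c, hc, hcy⟩ := h2
    have h3 : c⁻¹ * y ∈ K := QuotientGroup.eq.1 hcy
    have h4 : y = (c * (c⁻¹ * y) * c⁻¹) * c := by group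
    rw [h4]
    exact Subgroup.mul_mem_sup (Subgroup.Normal.conj_mem inferInstance _ h3 c) hc
  · intro h
    rw [eq_top_iff]
    intro y _
    obtain ⟨y, rfl⟩ := QuotientGroup.mk_surjective y
    have h2 : y ∈ K ⊔ gm (Surf g) 1 := by rw [h]; exact Subgroup.mem_top y
    obtain ⟨a, ha, c, hc, rfl⟩ := Subgroup.mem_sup_of_normal_right.1 h2
    refine ⟨c, hc, ?_⟩
    show (QuotientGroup.mk c : Surf g ⧸ K) = QuotientGroup.mk (a * c)
    rw [QuotientGroup.mk_mul, (QuotientGroup.eq_one_iff a).2 ha, one_mul]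

theorem types_exist (k : Fin 3 → ℕ) :
    (∃ t : Fin g → Fin 3, ∀ l, Fintype.card {i // t i = l} = k l) ↔ g = k 0 + k 1 + k 2 := by
  constructor
  · rintro ⟨t, ht⟩
    have h1 : Fintype.card (Fin g) = ∑ l, Fintype.card {i // t i = l} := by
      rw [← Fintype.card_sigma]
      exact Fintype.card_congr (Equiv.sigmaFiberEquiv t).symm
    rw [Fintype.card_fin] at h1
    rw [h1]
    simp only [ht, Fin.sum_univ_three]
  · intro h
    have h1 : Fintype.card (Σ l, Fin (k l)) = g := by
      rw [Fintype.card_sigma]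
      simp only [Fintype.card_fin, Fin.sum_univ_three]
      exact h.symm
    let e : (Σ l, Fin (k l)) ≃ Fin g := Fintype.equivFinOfCardEq h1
    refine ⟨fun i => (e.symm i).1, fun l => ?_⟩
    rw [← Fintype.card_fin (k l)]
    apply Fintype.card_congr
    refine (Equiv.subtypeEquiv (p := fun i => (e.symm i).1 = l) (q := fun s : (Σ l, Fin (k l)) => s.1 = l)
      e.symm (fun i => Iff.rfl)).trans ?_
    exact Equiv.sigmaSubtype l

end

end Pool.Agent.Helper6.TS
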