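import Pool.Agent.Helper6.TS.Dec
import Pool.Agent.Helper6.TS.Data

/-!
# Trisections and nilpotent quotients: the inductive step
-/

set_option autoImplicit false

namespace Pool.Agent.Helper6.TS

open scoped commutatorElement

/-! ### Collecting commutators -/

/-- `c ↦ [c, q]` as a homomorphism to the center of `G / gm (n+2)` -/
def adz {G : Type} [Group G] (n : ℕ) (q : G) : gm G n →* Subgroup.center (G ⧸ gm G (n + 2)) :=
  (adl n q).codRestrict _ (fun c => by
    rw [Subgroup.mem_center_iff]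
    intro x
    exact (central_mk (gm_succ_mem c.2 q) x).symm)

theorem adz_coe {G : Type} [Group G] (n : ℕ) (q : G) (c : gm G n) :
    (adz n q c : G ⧸ gm G (n + 2)) = QuotientGroup.mk ⁅(c : G), q⁆ := rfl

theorem collect {G : Type} [Group G] {S : Type} [Fintype S] [DecidableEq S] (n : ℕ) (q : S → G)
    (K : S → Subgroup G) {r : G}
    (hr : r ∈ Subgroup.closure {z | ∃ c ∈ gm G n, ∃ s, z = ⁅c, q s⁆ ∧ c ∈ K s} ⊔ gm G (n + 2)) :
    ∃ c : S → gm G n, (∀ s, (c s : G) ∈ K s) ∧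
      (QuotientGroup.mk r : G ⧸ gm G (n + 2)) =
        ((∏ s, adz n (q s) (c s) : Subgroup.center (G ⧸ gm G (n + 2))) : G ⧸ gm G (n + 2)) := by
  obtain ⟨w, hw, z, hz, rfl⟩ := Subgroup.mem_sup_of_normal_right.1 hr
  rw [QuotientGroup.mk_mul, (QuotientGroup.eq_one_iff z).2 hz, mul_one]
  clear hr
  induction hw using Subgroup.closure_induction with
  | mem x hx =>
    obtain ⟨c, hc, s0, rfl, hcK⟩ := hx
    refine ⟨fun s => if s = s0 then ⟨c, hc⟩ else 1, ?_, ?_⟩
    · intro s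
      show ((if s = s0 then ⟨c, hc⟩ else 1 : gm G n) : G) ∈ K s
      by_cases h : s = s0
      · rw [if_pos h, h]
        exact hcK
      · rw [if_neg h]
        exact one_mem _
    · rw [Finset.prod_eq_single s0]
      · show _ = ((adz n (q s0) (if s0 = s0 then ⟨c, hc⟩ else 1) : Subgroup.center (G ⧸ gm G (n + 2))) :
          G ⧸ gm G (n + 2))
        rw [if_pos rfl, adz_coe]
      · intro s _ hs
        show adz n (q s) (if s = s0 then ⟨c, hc⟩ else 1) = 1
        rw [if_neg hs, map_one]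
      · intro h
        exact absurd (Finset.mem_univ s0) h
  | one =>
    refine ⟨fun _ => 1, fun s => one_mem _, ?_⟩
    simp only [map_one, Finset.prod_const_one]
    rfl
  | mul x y _ _ hx hy =>
    obtain ⟨c1, h1, h2⟩ := hx
    obtain ⟨c2, h3, h4⟩ := hy
    refine ⟨fun s => c1 s * c2 s, fun s => mul_mem (h1 s) (h3 s), ?_⟩
    simp only [map_mul, Finset.prod_mul_distrib]
    rw [QuotientGroup.mk_mul, h2, h4]
    rfl
  | inv x _ hx =>
    obtain ⟨c1, h1, h2⟩ := hx
    refine ⟨fun s => (c1 s)⁻¹, fun s => inv_mem (h1 s), ?_⟩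
    simp only [map_inv, Finset.prod_inv_distrib]
    rw [QuotientGroup.mk_inv, h2]
    rfl

/-! ### Letters -/

/-- the homomorphism given by a system -/
def Psi {g : ℕ} (κ δ : Fin g → Surf g) : FreeGroup (Fin g × Bool) →* Surf g :=
  FreeGroup.lift fun s => if s.2 = false then κ s.1 else δ s.1

theorem Psi_of {g : ℕ} (κ δ : Fin g → Surf g) (s : Fin g × Bool) :
    Psi κ δ (FreeGroup.of s) = if s.2 = false then κ s.1 else δ s.1 := FreeGroup.lift_apply_of

/-- killing letters -/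
def rho {g : ℕ} (t : Fin g → Fin 3) (j : Fin 3) : FreeGroup (Fin g × Bool) →* FreeGroup (Fin g × Bool) :=
  FreeGroup.lift fun s => if (s.2 = false ↔ t s.1 = j) then FreeGroup.of s else 1

theorem rho_of {g : ℕ} (t : Fin g → Fin 3) (j : Fin 3) (s : Fin g × Bool) :
    rho t j (FreeGroup.of s) = if (s.2 = false ↔ t s.1 = j) then FreeGroup.of s else 1 := FreeGroup.lift_apply_of

/-- the letters which are not killed -/
def iota {g : ℕ} (t : Fin g → Fin 3) (j : Fin 3) : FreeGroup (Fin g) →* FreeGroup (Fin g × Bool) :=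
  FreeGroup.lift fun x => FreeGroup.of (x, if t x = j then false else true)

/-- the projection -/
def prj {g : ℕ} (t : Fin g → Fin 3) (j : Fin 3) : FreeGroup (Fin g × Bool) →* FreeGroup (Fin g) :=
  FreeGroup.lift (stdGen t j)

theorem iota_prj {g : ℕ} (t : Fin g → Fin 3) (j : Fin 3) (w : FreeGroup (Fin g × Bool)) :
    iota t j (prj t j w) = rho t j w := by
  have h : (iota t j).comp (prj t j) = rho t j := by
    ext s
    show iota t j (prj t j (FreeGroup.of s)) = rho t j (FreeGroup.of s)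
    rw [rho_of]
    rw [show prj t j (FreeGroup.of s) = stdGen t j s from FreeGroup.lift_apply_of]
    unfold stdGen
    obtain ⟨x, b⟩ := s
    by_cases h : t x = j
    · cases b
      · simp only [h, iff_self, if_true]
        rw [show iota t j (FreeGroup.of x) = FreeGroup.of (x, if t x = j then false else true) from
          FreeGroup.lift_apply_of, if_pos h]
      · simp [h]
    · cases b
      · simp [h]
      · simp only [h, Bool.true_eq_false, iff_self, if_true]
        rw [show iota t j (FreeGroup.of x) = FreeGroup.of (x, if t x = j then false else true) from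
          FreeGroup.lift_apply_of, if_neg h]
  exact DFunLike.congr_fun h w

theorem f_dead {g : ℕ} {f : Fin 3 → (Surf g →* FreeGroup (Fin g))} {t : Fin g → Fin 3} {κ δ : Fin g → Surf g}
    (hK : Ker f t κ δ) (j : Fin 3) (s : Fin g × Bool) (hs : ¬ (s.2 = false ↔ t s.1 = j)) :
    f j (Psi κ δ (FreeGroup.of s)) = 1 := by
  rw [Psi_of]
  obtain ⟨x, b⟩ := s
  cases b
  · have h1 : j ≠ t x := by
      intro h
      apply hs
      simp [h]
    rw [if_pos rfl]
    exact hK.1 x j h1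
  · have h1 : t x = j := by
      by_contra h
      apply hs
      simp [h]
    rw [if_neg (by simp)]
    rw [← h1]
    exact hK.2 x

theorem f_Psi_rho {g : ℕ} {f : Fin 3 → (Surf g →* FreeGroup (Fin g))} {t : Fin g → Fin 3} {κ δ : Fin g → Surf g}
    (hK : Ker f t κ δ) (j : Fin 3) (w : FreeGroup (Fin g × Bool)) :
    f j (Psi κ δ (rho t j w)) = f j (Psi κ δ w) := by
  have h : ((f j).comp (Psi κ δ)).comp (rho t j) = (f j).comp (Psi κ δ) := by
    ext s
    show f j (Psi κ δ (rho t j (FreeGroup.of s))) = f j (Psi κ δ (FreeGroup.of s))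
    rw [rho_of]
    by_cases hs : (s.2 = false ↔ t s.1 = j)
    · rw [if_pos hs]
    · rw [if_neg hs, f_dead hK j s hs, map_one, map_one]
  exact DFunLike.congr_fun h w

/-- a symplectic system generates modulo commutators -/
theorem onto_Psi {g : ℕ} {κ δ : Fin g → Surf g} (hS : SB κ δ) : (Psi κ δ).range ⊔ gm (Surf g) 1 = ⊤ := by
  rw [eq_top_iff]
  intro z _
  set w : FreeGroup (Fin g × Bool) := ((List.finRange g).map fun x =>
    FreeGroup.of (x, false) ^ (om z (δ x)) * FreeGroup.of (x, true) ^ (om (κ x) z)).prod with hw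
  have h1 : Psi κ δ w = ((List.finRange g).map fun x => κ x ^ (om z (δ x)) * δ x ^ (om (κ x) z)).prod := by
    rw [hw, map_list_prod, List.map_map]
    congr 1
    apply List.map_congr_left
    intro x _
    show Psi κ δ (FreeGroup.of (x, false) ^ (om z (δ x)) * FreeGroup.of (x, true) ^ (om (κ x) z)) = _
    rw [map_mul, map_zpow, map_zpow, Psi_of, Psi_of]
    simp
  have h2 : (QuotientGroup.mk (Psi κ δ w) : Surf g ⧸ gm (Surf g) 1) = QuotientGroup.mk z := by
    apply mk_eq_of_cd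
    intro s
    rw [h1, cd_prod, ← Fin.sum_univ_def, expand hS z s]
    apply Finset.sum_congr rfl
    intro x _
    rw [cd_mul, cd_zpow, cd_zpow]
  have h3 : z = Psi κ δ w * ((Psi κ δ w)⁻¹ * z) := by group
  rw [h3]
  exact Subgroup.mul_mem_sup ⟨w, rfl⟩ (QuotientGroup.eq.1 h2)

/-- the restriction of `f j ∘ Psi` to the letters which are not killed is onto modulo commutators -/
theorem onto_beta {g : ℕ} {f : Fin 3 → (Surf g →* FreeGroup (Fin g))} (hf : ∀ j, Function.Surjective (f j))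
    {t : Fin g → Fin 3} {κ δ : Fin g → Surf g} (hK : Ker f t κ δ) (hS : SB κ δ) (j : Fin 3) :
    (((f j).comp (Psi κ δ)).comp (iota t j)).range ⊔ gm (FreeGroup (Fin g)) 1 = ⊤ := by
  rw [eq_top_iff]
  intro u _
  obtain ⟨z, rfl⟩ := hf j u
  have h1 : z ∈ (Psi κ δ).range ⊔ gm (Surf g) 1 := by
    rw [onto_Psi hS]
    exact Subgroup.mem_top z
  obtain ⟨_, ⟨w, rfl⟩, c, hc, rfl⟩ := Subgroup.mem_sup_of_normal_right.1 h1
  rw [map_mul]
  refine Subgroup.mul_mem_sup ⟨prj t j w, ?_⟩ (map_gm (f j) 1 hc)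
  show f j (Psi κ δ (iota t j (prj t j w))) = _
  rw [iota_prj, f_Psi_rho hK]

theorem nmap_onto {G H : Type} [Group G] [Group H] (β : G →* H) (n : ℕ) (h : β.range ⊔ gm H n = ⊤) :
    Function.Surjective (nmap β n) := by
  intro y
  obtain ⟨u, rfl⟩ := QuotientGroup.mk_surjective y
  have h1 : u ∈ β.range ⊔ gm H n := by rw [h]; exact Subgroup.mem_top u
  obtain ⟨_, ⟨w, rfl⟩, c, hc, rfl⟩ := Subgroup.mem_sup_of_normal_right.1 h1
  refine ⟨QuotientGroup.mk w, ?_⟩
  rw [QuotientGroup.mk_mul, (QuotientGroup.eq_one_iff c).2 hc, mul_one]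
  rfl

theorem inv_mod {g : ℕ} (β : FreeGroup (Fin g) →* FreeGroup (Fin g))
    (h : β.range ⊔ gm (FreeGroup (Fin g)) 1 = ⊤) :
    ∃ β' : FreeGroup (Fin g) →* FreeGroup (Fin g), ∀ w,
      (QuotientGroup.mk (β' (β w)) : FreeGroup (Fin g) ⧸ gm (FreeGroup (Fin g)) 1) = QuotientGroup.mk w := by
  have hs := nmap_onto β 1 h
  have hi := hopf (Set.range (FreeGroup.of : Fin g → FreeGroup (Fin g))) (Set.finite_range _)
    (FreeGroup.closure_range_of _) 1 (nmap β 1) hs
  have hpre : ∀ x : Fin g, ∃ w : FreeGroup (Fin g), nmap β 1 (QuotientGroup.mk w) =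
      QuotientGroup.mk (FreeGroup.of x) := by
    intro x
    obtain ⟨y, hy⟩ := hs (QuotientGroup.mk (FreeGroup.of x))
    obtain ⟨w, rfl⟩ := QuotientGroup.mk_surjective y
    exact ⟨w, hy⟩
  choose w0 hw0 using hpre
  refine ⟨FreeGroup.lift w0, fun w => ?_⟩
  apply hi
  have h1 : (nmap β 1).comp ((QuotientGroup.mk' _).comp (FreeGroup.lift w0)) =
      QuotientGroup.mk' (gm (FreeGroup (Fin g)) 1) := by
    ext x
    show nmap β 1 (QuotientGroup.mk (FreeGroup.lift w0 (FreeGroup.of x))) = _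
    rw [FreeGroup.lift_apply_of, hw0]
    rfl
  exact DFunLike.congr_fun h1 (β w)

/-! ### The step -/

/-- the product of the commutators -/
def Rl {g : ℕ} (κ δ : Fin g → Surf g) : Surf g := ((List.finRange g).map fun x => (⁅κ x, δ x⁆ : Surf g)).prod

theorem f_Rl {g : ℕ} {f : Fin 3 → (Surf g →* FreeGroup (Fin g))} {t : Fin g → Fin 3} {κ δ : Fin g → Surf g}
    (hK : Ker f t κ δ) (j : Fin 3) : f j (Rl κ δ) = 1 := by
  unfold Rl
  rw [map_list_prod, List.map_map]
  apply List.prod_eq_one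
  intro y hy
  rw [List.mem_map] at hy
  obtain ⟨x, -, rfl⟩ := hy
  show f j ⁅κ x, δ x⁆ = 1
  rw [map_commutatorElement]
  by_cases h : j = t x
  · rw [h, hK.2 x, commutatorElement_one_right]
  · rw [hK.1 x j h, commutatorElement_one_left]

theorem step_comm {G : Type} [Group G] (n : ℕ) (hn : 1 ≤ n) (a b : G) (u v : gm G n) :
    (QuotientGroup.mk ⁅a * (u : G), b * (v : G)⁆ : G ⧸ gm G (n + 2)) =
      QuotientGroup.mk ⁅a, b⁆ *
        ((adz n b u * (adz n a v)⁻¹ : Subgroup.center (G ⧸ gm G (n + 2))) : G ⧸ gm G (n + 2)) := by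
  have h1 : (QuotientGroup.mk ⁅a * (u : G), b * (v : G)⁆ : G ⧸ gm G (n + 2)) =
      QuotientGroup.mk ⁅a, b * (v : G)⁆ * QuotientGroup.mk ⁅(u : G), b * (v : G)⁆ := mk_left u.2 _
  have h2 : (QuotientGroup.mk ⁅(u : G), b * (v : G)⁆ : G ⧸ gm G (n + 2)) = QuotientGroup.mk ⁅(u : G), b⁆ := by
    rw [mk_right u.2, (QuotientGroup.eq_one_iff ⁅(u : G), (v : G)⁆).2 (comm_gm_one u.2 (gm_le hn v.2)), mul_one]
  have h3 : (QuotientGroup.mk ⁅a, b * (v : G)⁆ : G ⧸ gm G (n + 2)) =
      (QuotientGroup.mk ⁅(v : G), a⁆)⁻¹ * QuotientGroup.mk ⁅a, b⁆ := by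
    rw [← commutatorElement_inv (b * (v : G)) a, QuotientGroup.mk_inv, mk_left v.2, mul_inv_rev,
      ← QuotientGroup.mk_inv _ ⁅b, a⁆, commutatorElement_inv]
  have h4 := central_mk (gm_succ_mem v.2 a) (QuotientGroup.mk ⁅a, b⁆ : G ⧸ gm G (n + 2))
  have h5 := central_mk (gm_succ_mem v.2 a) (QuotientGroup.mk ⁅(u : G), b⁆ : G ⧸ gm G (n + 2))
  rw [h1, h2, h3, Subgroup.coe_mul, Subgroup.coe_inv, adz_coe, adz_coe]
  have h6 : (QuotientGroup.mk ⁅(v : G), a⁆ : G ⧸ gm G (n + 2))⁻¹ * QuotientGroup.mk ⁅a, b⁆ =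
      QuotientGroup.mk ⁅a, b⁆ * (QuotientGroup.mk ⁅(v : G), a⁆ : G ⧸ gm G (n + 2))⁻¹ := by
    rw [inv_mul_eq_iff_eq_mul, ← mul_assoc, h4, mul_inv_cancel_right]
  have h7 : (QuotientGroup.mk ⁅(v : G), a⁆ : G ⧸ gm G (n + 2))⁻¹ * QuotientGroup.mk ⁅(u : G), b⁆ =
      QuotientGroup.mk ⁅(u : G), b⁆ * (QuotientGroup.mk ⁅(v : G), a⁆ : G ⧸ gm G (n + 2))⁻¹ := by
    rw [inv_mul_eq_iff_eq_mul, ← mul_assoc, h5, mul_inv_cancel_right]
  rw [h6, mul_assoc, h7]

theorem center_comb {Q : Type} [Group Q] (a b : Q) (e E : Subgroup.center Q) :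
    (a * (e : Q)) * (b * (E : Q)) = (a * b) * ((e * E : Subgroup.center Q) : Q) := by
  have h1 := Subgroup.mem_center_iff.1 e.2 b
  rw [Subgroup.coe_mul, mul_assoc, ← mul_assoc (e : Q), ← h1, mul_assoc, mul_assoc]

theorem step_prod {G : Type} [Group G] {S : Type} (n : ℕ) (hn : 1 ≤ n) (κ δ : S → G) (u v : S → gm G n)
    (L : List S) :
    (QuotientGroup.mk ((L.map fun x => ⁅κ x * (u x : G), δ x * (v x : G)⁆).prod) : G ⧸ gm G (n + 2)) =
      QuotientGroup.mk ((L.map fun x => ⁅κ x, δ x⁆).prod) *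
        (((L.map fun x => adz n (δ x) (u x) * (adz n (κ x) (v x))⁻¹).prod :
          Subgroup.center (G ⧸ gm G (n + 2))) : G ⧸ gm G (n + 2)) := by
  induction L with
  | nil =>
    simp only [List.map_nil, List.prod_nil]
    exact (mul_one _).symm
  | cons x L ih =>
    rw [List.map_cons, List.prod_cons, QuotientGroup.mk_mul, ih, step_comm n hn, List.map_cons, List.prod_cons,
      QuotientGroup.mk_mul, List.map_cons, List.prod_cons]
    exact center_comb _ _ _ _

theorem step {g : ℕ} {f : Fin 3 → (Surf g →* FreeGroup (Fin g))} (hf : ∀ j, Function.Surjective (f j))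
    {t : Fin g → Fin 3} {κ δ : Fin g → Surf g} (hK : Ker f t κ δ) (hS : SB κ δ) (n : ℕ) (hn : 1 ≤ n)
    (hR : Rl κ δ ∈ gm (Surf g) (n + 1)) :
    ∃ u v : Fin g → gm (Surf g) n, Ker f t (fun x => κ x * (u x : Surf g)) (fun x => δ x * (v x : Surf g)) ∧
      Rl (fun x => κ x * (u x : Surf g)) (fun x => δ x * (v x : Surf g)) ∈ gm (Surf g) (n + 2) := by
  -- the homomorphisms `χ j`
  choose β' hβ' using fun j => inv_mod (((f j).comp (Psi κ δ)).comp (iota t j)) (onto_beta hf hK hS j)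
  have hχ : ∀ j w, (QuotientGroup.mk (((iota t j).comp (β' j)) (f j (Psi κ δ w))) :
      FreeGroup (Fin g × Bool) ⧸ gm (FreeGroup (Fin g × Bool)) 1) = QuotientGroup.mk (rho t j w) := by
    intro j w
    rw [← f_Psi_rho hK, ← iota_prj]
    have h1 := hβ' j (prj t j w)
    have h2 : (prj t j w)⁻¹ * β' j (f j (Psi κ δ (iota t j (prj t j w)))) ∈ gm (FreeGroup (Fin g)) 1 :=
      QuotientGroup.eq.1 h1.symm
    have h3 := map_gm (iota t j) 1 h2
    rw [map_mul, map_inv] at h3
    exact (QuotientGroup.eq.2 h3).symm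
  have hdec := decG (F := fun _ => FreeGroup (Fin g)) (FreeGroup.of : Fin g × Bool → _)
    (FreeGroup.closure_range_of _) (rho t)
    (fun j s => by
      rw [rho_of]
      by_cases hs : (s.2 = false ↔ t s.1 = j)
      · rw [if_pos hs]
        exact Or.inr rfl
      · rw [if_neg hs]
        exact Or.inl rfl)
    (Psi κ δ) (onto_Psi hS) f (fun j w => f_Psi_rho hK j w) (fun j => (iota t j).comp (β' j)) hχ n hR
    (fun j => f_Rl hK j)
  -- collect
  set K : Fin g × Bool → Subgroup (Surf g) := fun s =>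
    ⨅ j, ⨅ (_ : f j (Psi κ δ (FreeGroup.of s)) ≠ 1), (f j).ker with hKdef
  have hset : {z : Surf g | ∃ c ∈ gm (Surf g) n, ∃ s, z = ⁅c, Psi κ δ (FreeGroup.of s)⁆ ∧
      ∀ j, f j (Psi κ δ (FreeGroup.of s)) = 1 ∨ f j c = 1} ⊆
      {z | ∃ c ∈ gm (Surf g) n, ∃ s, z = ⁅c, Psi κ δ (FreeGroup.of s)⁆ ∧ c ∈ K s} := by
    rintro z ⟨c, hc, s, rfl, h⟩
    refine ⟨c, hc, s, rfl, ?_⟩
    simp only [hKdef, Subgroup.mem_iInf]
    intro j hj
    rcases h j with h1 | h1
    · exact absurd h1 hj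
    · exact h1
  obtain ⟨c, hcK, hc⟩ := collect n (fun s => Psi κ δ (FreeGroup.of s)) K
    ((sup_le_sup_right (Subgroup.closure_mono hset) _) hdec)
  have hK' : ∀ s j, f j (Psi κ δ (FreeGroup.of s)) ≠ 1 → f j (c s : Surf g) = 1 := by
    intro s j hj
    have h1 := hcK s
    simp only [hKdef, Subgroup.mem_iInf] at h1
    exact h1 j hj
  have hneκ : ∀ x, f (t x) (κ x) ≠ 1 := by
    intro x h
    have h1 := lagrangian (f (t x)) (hf _) h (hK.2 x)
    rw [hS.kd, if_pos rfl] at h1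
    exact one_ne_zero h1
  have hneδ : ∀ x j, j ≠ t x → f j (δ x) ≠ 1 := by
    intro x j hj h
    have h1 := lagrangian (f j) (hf _) (hK.1 x j hj) h
    rw [hS.kd, if_pos rfl] at h1
    exact one_ne_zero h1
  refine ⟨fun x => (c (x, true))⁻¹, fun x => c (x, false), ⟨?_, ?_⟩, ?_⟩
  · intro x j hj
    show f j (κ x * ((c (x, true))⁻¹ : gm (Surf g) n)) = 1
    rw [map_mul, hK.1 x j hj, one_mul, Subgroup.coe_inv, map_inv, inv_eq_one]
    apply hK' (x, true) j
    rw [Psi_of, if_neg (by simp)]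
    exact hneδ x j hj
  · intro x
    rw [map_mul, hK.2 x, one_mul]
    apply hK' (x, false) (t x)
    rw [Psi_of, if_pos rfl]
    exact hneκ x
  · rw [← QuotientGroup.eq_one_iff]
    have h1 := step_prod n hn κ δ (fun x => (c (x, true))⁻¹) (fun x => c (x, false)) (List.finRange g)
    unfold Rl
    refine h1.trans ?_
    have h2 : (QuotientGroup.mk (((List.finRange g).map fun x => ⁅κ x, δ x⁆).prod) : Surf g ⧸ gm (Surf g) (n + 2)) =
      ((∏ s, adz n (Psi κ δ (FreeGroup.of s)) (c s) : Subgroup.center (Surf g ⧸ gm (Surf g) (n + 2))) :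
        Surf g ⧸ gm (Surf g) (n + 2)) := hc
    rw [h2, ← Subgroup.coe_mul]
    have h3 : (∏ s, adz n (Psi κ δ (FreeGroup.of s)) (c s)) *
        ((List.finRange g).map fun x => adz n (δ x) ((c (x, true))⁻¹) * (adz n (κ x) (c (x, false)))⁻¹).prod = 1 := by
      rw [← Fin.prod_univ_def, Fintype.prod_prod_type, ← Finset.prod_mul_distrib]
      apply Finset.prod_eq_one
      intro x _
      rw [Fintype.prod_bool, Psi_of, Psi_of, if_neg (by simp), if_pos rfl, map_inv]
      rw [mul_mul_mul_comm, mul_inv_cancel, mul_inv_cancel, one_mul]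
    rw [h3]
    rfl

end Pool.Agent.Helper6.TS
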