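import Pool.Agent.Helper6.TS.StdT

/-!
# Group trisections: the definitions used in the statement
-/

set_option autoImplicit false

namespace Pool.Agent.Helper6.TS

section

variable {G H : Type} [Group G] [Group H]

/-- The pushout of the two epimorphisms `a, b` is free of rank `n`. -/
def FreePushout (a b : G →* H) (n : ℕ) : Prop := Nonempty ((G ⧸ (a.ker ⊔ b.ker)) ≃* FreeGroup (Fin n))

/-- The normal subgroup generated by the three kernels. -/
def allKer (f : Fin 3 → (G →* H)) : Subgroup G := (f 0).ker ⊔ (f 1).ker ⊔ (f 2).ker

instance allKer_normal (f : Fin 3 → (G →* H)) : (allKer f).Normal := by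
  unfold allKer
  infer_instance

/-- The total group of the triple, the quotient by the normal subgroup generated by the three kernels, is trivial. -/
def TotalTrivial (f : Fin 3 → (G →* H)) : Prop := allKer f = ⊤

/-- The total group of the triple is perfect. -/
def TotalPerfect (f : Fin 3 → (G →* H)) : Prop := commutator (G ⧸ allKer f) = ⊤

end

/-- The automorphisms `a, b` carry the homomorphism `p` to the homomorphism `q`. -/
def Square {A B : Type} [Group A] [Group B] (p q : A →* B) (a : A ≃* A) (b : B ≃* B) : Prop :=
  ∀ y, q (a y) = b (p y)

/-- The automorphisms of the nilpotent quotient `Nq G c`. -/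
abbrev NqAut (G : Type) [Group G] (c : ℕ) : Type := Nq G c ≃* Nq G c

/-- The automorphism `a` of `Nq G (c + 1)` induces the automorphism `b` of `Nq G c`. -/
def Induces {G : Type} [Group G] (c : ℕ) (a : NqAut G (c + 1)) (b : NqAut G c) : Prop :=
  Square (nproj G c) (nproj G c) a b

/-- A compatible family of automorphisms of the quotients of `G` by the terms of its lower central series, that is, an
automorphism of this tower of groups. -/
structure Tower (G : Type) [Group G] where
  aut : ∀ c : ℕ, NqAut G c
  compat : ∀ c, Induces c (aut (c + 1)) (aut c)

/-- The automorphisms `θ, ψ` of the towers carry the homomorphism `s` to the homomorphism `a`, at every level `c`. -/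
def Carries {G H : Type} [Group G] [Group H] (a s : G →* H) (θ : Tower G) (ψ : Tower H) : Prop :=
  ∀ c, Square (nmap s c) (nmap a c) (θ.aut c) (ψ.aut c)

/-- A group trisection with central surface of genus `g` and sectors of genera `k 0, k 1, k 2` (Abrams, Gay, Kirby):
three epimorphisms from the surface group onto the free group of rank `g` such that the pushouts of two of them are
free. The sector `l` belongs to the two maps `f (l + 1)`, `f (l + 2)` (indices modulo 3). -/
structure GroupTrisection (g : ℕ) (k : Fin 3 → ℕ) (f : Fin 3 → (Surf g →* FreeGroup (Fin g))) : Prop where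
  surj : ∀ j, Function.Surjective (f j)
  sector : ∀ l, FreePushout (f (l + 1)) (f (l + 2)) (k l)

/-- The triple `f` is standard modulo every term of the lower central series, with handles of types `t`: there are
automorphisms of the tower of nilpotent quotients of the surface group and of those of the free groups which carry the
standard triple to the triple `f`. -/
def StandardAtAllLevels {g : ℕ} (f : Fin 3 → (Surf g →* FreeGroup (Fin g))) (t : Fin g → Fin 3) : Prop :=
  ∃ (θ : Tower (Surf g)) (ψ : Fin 3 → Tower (FreeGroup (Fin g))), ∀ j, Carries (f j) (std t j) θ (ψ j)

/-- The number of handles of type `l`. -/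
def numType {g : ℕ} (t : Fin g → Fin 3) (l : Fin 3) : ℕ := Fintype.card {i // t i = l}

end Pool.Agent.Helper6.TS
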