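import Pool.Agent.Helper6.TS.Lcs
import Pool.Agent.Helper6.TS.Defs

/-!
# Trisections and nilpotent quotients: coordinates and the symplectic form
-/

set_option autoImplicit false

namespace Pool.Agent.Helper6.TS

open scoped commutatorElement

/-! ### Coordinates -/

/-- coordinates of a free group -/
noncomputable def fco {S : Type} [DecidableEq S] (s : S) : FreeGroup S →* Multiplicative ℤ :=
  FreeGroup.lift fun r => if r = s then Multiplicative.ofAdd 1 else 1

theorem fco_of {S : Type} [DecidableEq S] (s r : S) :
    fco s (FreeGroup.of r) = if r = s then Multiplicative.ofAdd 1 else 1 := by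
  unfold fco
  rw [FreeGroup.lift_apply_of]

theorem lift_relator {g : ℕ} {A : Type} [CommGroup A] (φ : Fin g × Bool → A) :
    ∀ r ∈ ({relator g} : Set (FreeGroup (Fin g × Bool))), FreeGroup.lift φ r = 1 := by
  intro r hr
  rw [Set.mem_singleton_iff] at hr
  subst hr
  unfold relator
  rw [map_list_prod, List.map_map]
  apply List.prod_eq_one
  intro y hy
  rw [List.mem_map] at hy
  obtain ⟨i, -, rfl⟩ := hy
  show FreeGroup.lift φ ⁅FreeGroup.of (i, false), FreeGroup.of (i, true)⁆ = 1
  rw [map_commutatorElement]
  exact commutatorElement_eq_one_iff_mul_comm.2 (mul_comm _ _)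

theorem map_relator {g : ℕ} {H : Type} [Group H] (φ : FreeGroup (Fin g × Bool) →* H) :
    φ (relator g) = ((List.finRange g).map fun i => ⁅φ (FreeGroup.of (i, false)), φ (FreeGroup.of (i, true))⁆).prod := by
  unfold relator
  rw [map_list_prod, List.map_map]
  congr 1
  apply List.map_congr_left
  intro i _
  exact map_commutatorElement _ _ _

/-- the generators -/
def gen {g : ℕ} (s : Fin g × Bool) : Surf g := PresentedGroup.of s

/-- coordinates of the surface group -/
noncomputable def co {g : ℕ} (s : Fin g × Bool) : Surf g →* Multiplicative ℤ :=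
  PresentedGroup.toGroup (lift_relator fun r => if r = s then Multiplicative.ofAdd 1 else 1)

theorem co_gen {g : ℕ} (s r : Fin g × Bool) :
    co s (gen r) = if r = s then Multiplicative.ofAdd 1 else 1 := by
  unfold co gen
  rw [PresentedGroup.toGroup.of]

/-- the coordinate vector -/
noncomputable def cd {g : ℕ} (y : Surf g) (s : Fin g × Bool) : ℤ := Multiplicative.toAdd (co s y)

theorem cd_gen {g : ℕ} (s r : Fin g × Bool) : cd (gen r) s = if r = s then 1 else 0 := by
  unfold cd
  rw [co_gen]
  split_ifs <;> rfl

theorem cd_mul {g : ℕ} (y z : Surf g) (s : Fin g × Bool) : cd (y * z) s = cd y s + cd z s := by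
  unfold cd
  rw [map_mul, toAdd_mul]

theorem cd_one {g : ℕ} (s : Fin g × Bool) : cd (1 : Surf g) s = 0 := by
  unfold cd
  rw [map_one, toAdd_one]

theorem cd_inv {g : ℕ} (y : Surf g) (s : Fin g × Bool) : cd y⁻¹ s = -cd y s := by
  unfold cd
  rw [map_inv, toAdd_inv]

theorem cd_zpow {g : ℕ} (y : Surf g) (n : ℤ) (s : Fin g × Bool) : cd (y ^ n) s = n * cd y s := by
  unfold cd
  rw [map_zpow, toAdd_zpow, smul_eq_mul]

theorem cd_prod {g : ℕ} {ι : Type} (L : List ι) (y : ι → Surf g) (s : Fin g × Bool) :
    cd ((L.map y).prod) s = (L.map fun i => cd (y i) s).sum := by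
  induction L with
  | nil => simp [cd_one]
  | cons a L ih => rw [List.map_cons, List.prod_cons, cd_mul, ih, List.map_cons, List.sum_cons]

/-- the relation of the surface group -/
theorem rel_surf (g : ℕ) :
    ((List.finRange g).map fun i => (⁅gen (i, false), gen (i, true)⁆ : Surf g)).prod = 1 := by
  have h1 : (PresentedGroup.mk ({relator g} : Set (FreeGroup (Fin g × Bool)))) (relator g) = 1 :=
    PresentedGroup.one_of_mem (Set.mem_singleton _)
  rw [map_relator] at h1
  exact h1

theorem closure_gen (g : ℕ) : Subgroup.closure (Set.range (gen : Fin g × Bool → Surf g)) = ⊤ :=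
  PresentedGroup.closure_range_of _

/-- values of homomorphisms into commutative groups -/
theorem hom_coord {g : ℕ} {A : Type} [CommGroup A] (φ : Surf g →* A) (y : Surf g) :
    φ y = ∏ s, φ (gen s) ^ cd y s := by
  have h : ∀ y ∈ Subgroup.closure (Set.range (gen : Fin g × Bool → Surf g)),
      φ y = ∏ s, φ (gen s) ^ cd y s := by
    intro y hy
    induction hy using Subgroup.closure_induction with
    | mem x hx =>
      obtain ⟨r, rfl⟩ := hx
      rw [Finset.prod_eq_single r]
      · rw [cd_gen, if_pos rfl, zpow_one]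
      · intro s _ hs
        rw [cd_gen, if_neg (Ne.symm hs), zpow_zero]
      · intro h
        exact absurd (Finset.mem_univ r) h
    | one => simp [cd_one]
    | mul x y _ _ hx hy =>
      rw [map_mul, hx, hy, ← Finset.prod_mul_distrib]
      apply Finset.prod_congr rfl
      intro s _
      rw [cd_mul, zpow_add]
    | inv x _ hx =>
      rw [map_inv, hx, ← Finset.prod_inv_distrib]
      apply Finset.prod_congr rfl
      intro s _
      rw [cd_inv, zpow_neg]
  exact h y (by rw [closure_gen]; exact Subgroup.mem_top y)

/-- integer valued homomorphisms -/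
theorem hom_int {g : ℕ} (φ : Surf g →* Multiplicative ℤ) (y : Surf g) :
    Multiplicative.toAdd (φ y) = ∑ s, cd y s * Multiplicative.toAdd (φ (gen s)) := by
  rw [hom_coord φ y, toAdd_prod]
  apply Finset.sum_congr rfl
  intro s _
  rw [toAdd_zpow, smul_eq_mul]

/-- equal coordinates: equal modulo commutators -/
theorem mk_eq_of_cd {g : ℕ} {y z : Surf g} (h : ∀ s, cd y s = cd z s) :
    (QuotientGroup.mk y : Surf g ⧸ gm (Surf g) 1) = QuotientGroup.mk z := by
  have h1 : (Abelianization.of y : Abelianization (Surf g)) = Abelianization.of z := by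
    rw [hom_coord Abelianization.of y, hom_coord Abelianization.of z]
    apply Finset.prod_congr rfl
    intro s _
    rw [h s]
  exact h1

theorem cd_eq_of_mk {g : ℕ} {y z : Surf g}
    (h : (QuotientGroup.mk y : Surf g ⧸ gm (Surf g) 1) = QuotientGroup.mk z) (s : Fin g × Bool) :
    cd y s = cd z s := by
  have h1 : y⁻¹ * z ∈ gm (Surf g) 1 := QuotientGroup.eq.1 h
  have h2 : gm (Surf g) 1 ≤ (co s).ker := by
    rw [show gm (Surf g) 1 = ⁅(⊤ : Subgroup (Surf g)), ⊤⁆ from rfl, Subgroup.commutator_le]
    intro a _ b _
    rw [MonoidHom.mem_ker, map_commutatorElement]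
    exact commutatorElement_eq_one_iff_mul_comm.2 (mul_comm _ _)
  have h3 := MonoidHom.mem_ker.1 (h2 h1)
  rw [map_mul, map_inv, inv_mul_eq_one] at h3
  unfold cd
  rw [h3]

/-- an element of a free group killed by all integer valued homomorphisms is a product of commutators -/
theorem free_comm {S : Type} [Fintype S] [DecidableEq S] {y : FreeGroup S}
    (h : ∀ s, fco s y = 1) : y ∈ gm (FreeGroup S) 1 := by
  have h0 : ∀ y : FreeGroup S, (Abelianization.of y : Abelianization (FreeGroup S)) =
      ∏ s, (Abelianization.of (FreeGroup.of s)) ^ Multiplicative.toAdd (fco s y) := by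
    intro y
    induction y using FreeGroup.induction_on with
    | C1 => simp
    | of r =>
      rw [Finset.prod_eq_single r]
      · rw [fco_of, if_pos rfl, toAdd_ofAdd, zpow_one]
      · intro s _ hs
        rw [fco_of, if_neg (Ne.symm hs), toAdd_one, zpow_zero]
      · intro h
        exact absurd (Finset.mem_univ r) h
    | inv_of r hr =>
      rw [map_inv, hr, ← Finset.prod_inv_distrib]
      apply Finset.prod_congr rfl
      intro s _
      rw [map_inv, toAdd_inv, zpow_neg]
    | mul x y hx hy =>
      rw [map_mul, hx, hy, ← Finset.prod_mul_distrib]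
      apply Finset.prod_congr rfl
      intro s _
      rw [map_mul, toAdd_mul, zpow_add]
  have h1 : (Abelianization.of y : Abelianization (FreeGroup S)) = 1 := by
    rw [h0 y]
    apply Finset.prod_eq_one
    intro s _
    rw [h s, toAdd_one, zpow_zero]
  exact (QuotientGroup.eq_one_iff y).1 h1

/-! ### The Heisenberg group -/

/-- the integral Heisenberg group -/
@[ext] structure Heis where
  x : ℤ
  y : ℤ
  z : ℤ

instance : Mul Heis := ⟨fun p q => ⟨p.x + q.x, p.y + q.y, p.z + q.z + p.x * q.y⟩⟩
instance : One Heis := ⟨⟨0, 0, 0⟩⟩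
instance : Inv Heis := ⟨fun p => ⟨-p.x, -p.y, -p.z + p.x * p.y⟩⟩

@[simp] theorem Heis.mul_x (p q : Heis) : (p * q).x = p.x + q.x := rfl
@[simp] theorem Heis.mul_y (p q : Heis) : (p * q).y = p.y + q.y := rfl
@[simp] theorem Heis.mul_z (p q : Heis) : (p * q).z = p.z + q.z + p.x * q.y := rfl
@[simp] theorem Heis.one_x : (1 : Heis).x = 0 := rfl
@[simp] theorem Heis.one_y : (1 : Heis).y = 0 := rfl
@[simp] theorem Heis.one_z : (1 : Heis).z = 0 := rfl
@[simp] theorem Heis.inv_x (p : Heis) : (p⁻¹).x = -p.x := rfl
@[simp] theorem Heis.inv_y (p : Heis) : (p⁻¹).y = -p.y := rfl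
@[simp] theorem Heis.inv_z (p : Heis) : (p⁻¹).z = -p.z + p.x * p.y := rfl

instance : Group Heis := Group.ofLeftAxioms
  (by intro a b c; ext <;> simp <;> ring)
  (by intro a; ext <;> simp)
  (by intro a; ext <;> simp)

theorem heis_comm (p q : Heis) : (⁅p, q⁆ : Heis) = ⟨0, 0, p.x * q.y - q.x * p.y⟩ := by
  rw [commutatorElement_def]
  ext
  · simp
  · simp
  · simp
    ring

/-- the two coordinates -/
def heisX : Heis →* Multiplicative ℤ where
  toFun p := Multiplicative.ofAdd p.x
  map_one' := rfl
  map_mul' _ _ := rfl

def heisY : Heis →* Multiplicative ℤ where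
  toFun p := Multiplicative.ofAdd p.y
  map_one' := rfl
  map_mul' _ _ := rfl

theorem heis_prod {ι : Type} (L : List ι) (p q : ι → Heis) :
    ((L.map fun i => (⁅p i, q i⁆ : Heis)).prod).z = (L.map fun i => (p i).x * (q i).y - (q i).x * (p i).y).sum ∧
    ((L.map fun i => (⁅p i, q i⁆ : Heis)).prod).x = 0 := by
  induction L with
  | nil => simp
  | cons a L ih =>
    obtain ⟨h1, h2⟩ := ih
    rw [List.map_cons, List.prod_cons, List.map_cons, List.sum_cons]
    constructor
    · rw [Heis.mul_z, h1, heis_comm]
      simp
    · rw [Heis.mul_x, h2, heis_comm]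
      simp

/-- the isotropy identity: two integer valued homomorphisms which factor through a homomorphism to a free group -/
theorem isotropy {g : ℕ} {S : Type} (f : Surf g →* FreeGroup S) (lam mu : FreeGroup S →* Multiplicative ℤ) :
    ∑ i, (Multiplicative.toAdd (lam (f (gen (i, false)))) * Multiplicative.toAdd (mu (f (gen (i, true)))) -
      Multiplicative.toAdd (lam (f (gen (i, true)))) * Multiplicative.toAdd (mu (f (gen (i, false))))) = 0 := by
  let H : FreeGroup S →* Heis := FreeGroup.lift fun r =>
    ⟨Multiplicative.toAdd (lam (FreeGroup.of r)), Multiplicative.toAdd (mu (FreeGroup.of r)), 0⟩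
  have hx : heisX.comp H = lam := by
    ext r
    show Multiplicative.toAdd (Multiplicative.ofAdd ((H (FreeGroup.of r)).x)) = _
    rw [show H (FreeGroup.of r) = _ from FreeGroup.lift_apply_of]
    rfl
  have hy : heisY.comp H = mu := by
    ext r
    show Multiplicative.toAdd (Multiplicative.ofAdd ((H (FreeGroup.of r)).y)) = _
    rw [show H (FreeGroup.of r) = _ from FreeGroup.lift_apply_of]
    rfl
  have hx' : ∀ w, (H w).x = Multiplicative.toAdd (lam w) := fun w => by
    rw [← hx]
    rfl
  have hy' : ∀ w, (H w).y = Multiplicative.toAdd (mu w) := fun w => by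
    rw [← hy]
    rfl
  have hrel : ((List.finRange g).map fun i => (⁅H (f (gen (i, false))), H (f (gen (i, true)))⁆ : Heis)).prod = 1 := by
    have h1 := congrArg (fun w => H (f w)) (rel_surf g)
    simp only [map_one] at h1
    rw [← h1, map_list_prod, map_list_prod, List.map_map, List.map_map]
    congr 1
    apply List.map_congr_left
    intro i _
    simp only [Function.comp_apply, map_commutatorElement]
  have h3 := (heis_prod (List.finRange g) (fun i => H (f (gen (i, false)))) (fun i => H (f (gen (i, true))))).1
  rw [hrel] at h3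
  rw [Fin.sum_univ_def]
  refine Eq.trans ?_ h3.symm
  congr 1
  apply List.map_congr_left
  intro i _
  simp only [hx', hy']

end Pool.Agent.Helper6.TS
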