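import Pool.Agent.Helper6.TS.Sym

/-!
# Trisections and nilpotent quotients: symplectic bases
-/

set_option autoImplicit false

namespace Pool.Agent.Helper6.TS

open scoped commutatorElement

/-- the intersection form -/
noncomputable def om {g : ℕ} (y z : Surf g) : ℤ :=
  ∑ i, (cd y (i, false) * cd z (i, true) - cd y (i, true) * cd z (i, false))

theorem om_mul_left {g : ℕ} (y y' z : Surf g) : om (y * y') z = om y z + om y' z := by
  unfold om
  rw [← Finset.sum_add_distrib]
  apply Finset.sum_congr rfl
  intro i _
  rw [cd_mul, cd_mul]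
  ring

theorem om_symm {g : ℕ} (y z : Surf g) : om y z = -om z y := by
  unfold om
  rw [← Finset.sum_neg_distrib]
  apply Finset.sum_congr rfl
  intro i _
  ring

theorem om_mul_right {g : ℕ} (y z z' : Surf g) : om y (z * z') = om y z + om y z' := by
  rw [om_symm, om_mul_left, om_symm z, om_symm z']
  ring

theorem om_self {g : ℕ} (y : Surf g) : om y y = 0 := by
  have h := om_symm y y
  omega

theorem om_congr_left {g : ℕ} {y y' : Surf g} (h : ∀ s, cd y s = cd y' s) (z : Surf g) : om y z = om y' z := by
  unfold om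
  simp only [h]

theorem om_congr_right {g : ℕ} (y : Surf g) {z z' : Surf g} (h : ∀ s, cd z s = cd z' s) : om y z = om y z' := by
  unfold om
  simp only [h]

theorem om_comb_left {g : ℕ} {ι : Type} [Fintype ι] (y : Surf g) (c : ι → ℤ) (k : ι → Surf g)
    (h : ∀ s, cd y s = ∑ x, c x * cd (k x) s) (z : Surf g) : om y z = ∑ x, c x * om (k x) z := by
  unfold om
  simp only [h, Finset.sum_mul, Finset.mul_sum]
  rw [Finset.sum_comm (f := fun x i => c x * (cd (k x) (i, false) * cd z (i, true) - cd (k x) (i, true) * cd z (i, false)))]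
  apply Finset.sum_congr rfl
  intro i _
  rw [← Finset.sum_sub_distrib]
  apply Finset.sum_congr rfl
  intro x _
  ring

/-! ### Dual elements -/

/-- the element dual to an integer valued homomorphism -/
noncomputable def du {g : ℕ} (φ : Surf g →* Multiplicative ℤ) : Surf g :=
  ((List.finRange g).map fun i => gen (i, false) ^ (Multiplicative.toAdd (φ (gen (i, true)))) *
    gen (i, true) ^ (-Multiplicative.toAdd (φ (gen (i, false))))).prod

theorem cd_du_false {g : ℕ} (φ : Surf g →* Multiplicative ℤ) (i : Fin g) :
    cd (du φ) (i, false) = Multiplicative.toAdd (φ (gen (i, true))) := by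
  unfold du
  rw [cd_prod, ← Fin.sum_univ_def, Finset.sum_eq_single i]
  · rw [cd_mul, cd_zpow, cd_zpow, cd_gen, cd_gen]
    simp
  · intro j _ hj
    rw [cd_mul, cd_zpow, cd_zpow, cd_gen, cd_gen]
    simp [hj]
  · intro h
    exact absurd (Finset.mem_univ i) h

theorem cd_du_true {g : ℕ} (φ : Surf g →* Multiplicative ℤ) (i : Fin g) :
    cd (du φ) (i, true) = -Multiplicative.toAdd (φ (gen (i, false))) := by
  unfold du
  rw [cd_prod, ← Fin.sum_univ_def, Finset.sum_eq_single i]
  · rw [cd_mul, cd_zpow, cd_zpow, cd_gen, cd_gen]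
    simp
  · intro j _ hj
    rw [cd_mul, cd_zpow, cd_zpow, cd_gen, cd_gen]
    simp [hj]
  · intro h
    exact absurd (Finset.mem_univ i) h

theorem hom_int' {g : ℕ} (φ : Surf g →* Multiplicative ℤ) (y : Surf g) :
    Multiplicative.toAdd (φ y) = ∑ i, (cd y (i, true) * Multiplicative.toAdd (φ (gen (i, true))) +
      cd y (i, false) * Multiplicative.toAdd (φ (gen (i, false)))) := by
  rw [hom_int, Fintype.sum_prod_type]
  apply Finset.sum_congr rfl
  intro i _
  rw [Fintype.sum_bool]

theorem om_du {g : ℕ} (φ : Surf g →* Multiplicative ℤ) (z : Surf g) :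
    om (du φ) z = Multiplicative.toAdd (φ z) := by
  rw [hom_int']
  unfold om
  apply Finset.sum_congr rfl
  intro i _
  rw [cd_du_false, cd_du_true]
  ring

/-- the dual element of a homomorphism which factors through `f` is killed by `f` modulo commutators -/
theorem du_mem {g : ℕ} {S : Type} [Fintype S] [DecidableEq S] (f : Surf g →* FreeGroup S)
    (lam : FreeGroup S →* Multiplicative ℤ) : f (du (lam.comp f)) ∈ gm (FreeGroup S) 1 := by
  apply free_comm
  intro s
  apply Multiplicative.toAdd.injective
  rw [toAdd_one]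
  have h1 := hom_int' ((fco s).comp f) (du (lam.comp f))
  rw [MonoidHom.comp_apply] at h1
  rw [h1, ← isotropy f lam (fco s), ← sub_eq_zero, ← Finset.sum_sub_distrib]
  have h2 := isotropy f lam (fco s)
  have h3 : ∀ i : Fin g, cd (du (lam.comp f)) (i, true) * Multiplicative.toAdd (((fco s).comp f) (gen (i, true))) +
      cd (du (lam.comp f)) (i, false) * Multiplicative.toAdd (((fco s).comp f) (gen (i, false))) -
      (Multiplicative.toAdd (lam (f (gen (i, false)))) * Multiplicative.toAdd (fco s (f (gen (i, true)))) -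
      Multiplicative.toAdd (lam (f (gen (i, true)))) * Multiplicative.toAdd (fco s (f (gen (i, false))))) =
      (-2) * (Multiplicative.toAdd (lam (f (gen (i, false)))) * Multiplicative.toAdd (fco s (f (gen (i, true)))) -
      Multiplicative.toAdd (lam (f (gen (i, true)))) * Multiplicative.toAdd (fco s (f (gen (i, false))))) := by
    intro i
    rw [cd_du_false, cd_du_true]
    simp only [MonoidHom.comp_apply]
    ring
  rw [Finset.sum_congr rfl (fun i _ => h3 i), ← Finset.mul_sum, h2, mul_zero]

/-! ### Symplectic bases -/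

/-- the standard form -/
def J (g : ℕ) : Matrix (Fin g × Bool) (Fin g × Bool) ℤ := fun s r =>
  if s.1 = r.1 then (if s.2 = false ∧ r.2 = true then 1 else if s.2 = true ∧ r.2 = false then -1 else 0) else 0

theorem om_J {g : ℕ} (y z : Surf g) : om y z = ∑ s, ∑ r, cd y s * J g s r * cd z r := by
  unfold om
  rw [Fintype.sum_prod_type]
  apply Finset.sum_congr rfl
  intro i _
  rw [Fintype.sum_bool]
  have h1 : ∀ b : Bool, ∑ r, cd y (i, b) * J g (i, b) r * cd z r =
      ∑ c : Bool, cd y (i, b) * J g (i, b) (i, c) * cd z (i, c) := by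
    intro b
    rw [Fintype.sum_prod_type, Finset.sum_eq_single i]
    · intro j _ hj
      apply Finset.sum_eq_zero
      intro c _
      unfold J
      simp [Ne.symm hj]
    · intro h
      exact absurd (Finset.mem_univ i) h
  rw [h1, h1, Fintype.sum_bool, Fintype.sum_bool]
  unfold J
  simp
  ring

theorem J_mul_J (g : ℕ) : J g * J g = -1 := by
  ext s r
  obtain ⟨i, b⟩ := s
  obtain ⟨j, c⟩ := r
  rw [Matrix.mul_apply, Fintype.sum_prod_type, Finset.sum_eq_single i]
  · rw [Fintype.sum_bool]
    unfold J
    by_cases h : i = j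
    · subst h
      cases b <;> cases c <;> simp
    · cases b <;> cases c <;> simp [h]
  · intro m _ hm
    apply Finset.sum_eq_zero
    intro d _
    unfold J
    simp [Ne.symm hm]
  · intro h
    exact absurd (Finset.mem_univ i) h

/-- a symplectic system -/
structure SB {g : ℕ} (k d : Fin g → Surf g) : Prop where
  kk : ∀ x y, om (k x) (k y) = 0
  kd : ∀ x y, om (k x) (d y) = if x = y then 1 else 0
  dd : ∀ x y, om (d x) (d y) = 0

/-- the matrix of a system -/
noncomputable def Cm {g : ℕ} (k d : Fin g → Surf g) : Matrix (Fin g × Bool) (Fin g × Bool) ℤ := fun s r =>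
  cd (if s.2 = false then k s.1 else d s.1) r

theorem Cm_J {g : ℕ} {k d : Fin g → Surf g} (h : SB k d) : Cm k d * J g * (Cm k d).transpose = J g := by
  ext s r
  have h1 : (Cm k d * J g * (Cm k d).transpose) s r =
      om (if s.2 = false then k s.1 else d s.1) (if r.2 = false then k r.1 else d r.1) := by
    rw [om_J, Matrix.mul_apply, Finset.sum_comm]
    apply Finset.sum_congr rfl
    intro u _
    rw [Matrix.mul_apply, Finset.sum_mul]
    rfl
  rw [h1]
  obtain ⟨i, b⟩ := s
  obtain ⟨j, c⟩ := r
  unfold J
  cases b <;> cases c <;> simp [h.kk, h.kd, h.dd]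
  rw [om_symm, h.kd]
  by_cases hij : i = j
  · simp [hij]
  · simp [hij, Ne.symm hij]

theorem Cm_inv {g : ℕ} {k d : Fin g → Surf g} (h : SB k d) :
    J g * (Cm k d).transpose * (-J g) * Cm k d = 1 := by
  have h1 : Cm k d * (J g * (Cm k d).transpose * (-J g)) = 1 := by
    rw [← Matrix.mul_assoc, ← Matrix.mul_assoc, Cm_J h, Matrix.mul_neg, J_mul_J, neg_neg]
  exact mul_eq_one_comm.1 h1

theorem Cm_T {g : ℕ} {k d : Fin g → Surf g} (h : SB k d) :
    (Cm k d).transpose * J g * Cm k d = J g := by
  have h1 : J g * (J g * (Cm k d).transpose * (-J g) * Cm k d) = J g := by rw [Cm_inv h, Matrix.mul_one]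
  have h2 : J g * (J g * (Cm k d).transpose * J g * Cm k d) = J g * J g * ((Cm k d).transpose * J g * Cm k d) := by
    simp only [Matrix.mul_assoc]
  have h3 : J g * (J g * (Cm k d).transpose * (-J g) * Cm k d) = (Cm k d).transpose * J g * Cm k d := by
    rw [Matrix.mul_neg, Matrix.neg_mul, Matrix.mul_neg, h2, J_mul_J, Matrix.neg_mul, neg_neg, Matrix.one_mul]
  exact h3.symm.trans h1

/-- expansion in a symplectic basis -/
theorem expand {g : ℕ} {k d : Fin g → Surf g} (h : SB k d) (z : Surf g) (s : Fin g × Bool) :
    cd z s = ∑ x, (om z (d x) * cd (k x) s + om (k x) z * cd (d x) s) := by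
  have h1 : cd z s = ∑ r, cd z r * (J g * (Cm k d).transpose * (-J g) * Cm k d) r s := by
    rw [Cm_inv h, Finset.sum_eq_single s]
    · rw [Matrix.one_apply_eq, mul_one]
    · intro r _ hr
      rw [Matrix.one_apply_ne hr, mul_zero]
    · intro hs
      exact absurd (Finset.mem_univ s) hs
  have h2 : ∀ r, (J g * (Cm k d).transpose * (-J g) * Cm k d) r s =
      ∑ u, (J g * (Cm k d).transpose * (-J g)) r u * Cm k d u s := fun r => by rw [Matrix.mul_apply]
  have h3 : ∀ u, ∑ r, cd z r * (J g * (Cm k d).transpose) r u =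
      om z (if u.2 = false then k u.1 else d u.1) := by
    intro u
    rw [om_J]
    apply Finset.sum_congr rfl
    intro r _
    rw [Matrix.mul_apply, Finset.mul_sum]
    apply Finset.sum_congr rfl
    intro v _
    rw [mul_assoc]
    rfl
  have h4 : ∀ u, ∑ r, cd z r * (J g * (Cm k d).transpose * (-J g)) r u =
      ∑ v, om z (if v.2 = false then k v.1 else d v.1) * (-J g) v u := by
    intro u
    simp only [← h3]
    simp only [Finset.sum_mul]
    rw [Finset.sum_comm]
    apply Finset.sum_congr rfl
    intro r _
    rw [Matrix.mul_apply, Finset.mul_sum]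
    apply Finset.sum_congr rfl
    intro v _
    ring
  have h5 : ∀ u : Fin g × Bool, ∑ v, om z (if v.2 = false then k v.1 else d v.1) * (-J g) v u =
      if u.2 = false then om z (d u.1) else om (k u.1) z := by
    rintro ⟨i, b⟩
    rw [Fintype.sum_prod_type, Finset.sum_eq_single i]
    · rw [Fintype.sum_bool]
      simp only [Matrix.neg_apply]
      unfold J
      cases b
      · simp
      · simp
        rw [om_symm, neg_neg]
    · intro m _ hm
      apply Finset.sum_eq_zero
      intro e _
      simp only [Matrix.neg_apply]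
      unfold J
      simp [hm]
    · intro hi
      exact absurd (Finset.mem_univ i) hi
  rw [h1]
  simp only [h2, Finset.mul_sum]
  rw [Finset.sum_comm]
  have h6 : ∀ u, ∑ r, cd z r * ((J g * (Cm k d).transpose * (-J g)) r u * Cm k d u s) =
      (if u.2 = false then om z (d u.1) else om (k u.1) z) * Cm k d u s := by
    intro u
    rw [← h5 u, ← h4 u, Finset.sum_mul]
    apply Finset.sum_congr rfl
    intro r _
    ring
  simp only [h6]
  rw [Fintype.sum_prod_type]
  apply Finset.sum_congr rfl
  intro i _
  rw [Fintype.sum_bool]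
  unfold Cm
  simp
  ring

/-- the dual relation -/
theorem dualrel {g : ℕ} {k d : Fin g → Surf g} (h : SB k d) (s r : Fin g × Bool) :
    ∑ x, (cd (k x) s * cd (d x) r - cd (d x) s * cd (k x) r) = J g s r := by
  rw [← Cm_T h, Matrix.mul_apply]
  have h1 : ∀ u : Fin g × Bool, ((Cm k d).transpose * J g) s u =
      if u.2 = false then -cd (d u.1) s else cd (k u.1) s := by
    rintro ⟨i, b⟩
    rw [Matrix.mul_apply, Fintype.sum_prod_type, Finset.sum_eq_single i]
    · rw [Fintype.sum_bool]
      simp only [Matrix.transpose_apply]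
      unfold J Cm
      cases b <;> simp
    · intro m _ hm
      apply Finset.sum_eq_zero
      intro e _
      unfold J
      simp [hm]
    · intro hi
      exact absurd (Finset.mem_univ i) hi
  simp only [h1]
  rw [Fintype.sum_prod_type]
  apply Finset.sum_congr rfl
  intro i _
  rw [Fintype.sum_bool]
  unfold Cm
  simp
  ring

end Pool.Agent.Helper6.TS
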